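import Pool.Agent.TH340.EE.Scale

/-!
A Leray-Hopf solution with the strong energy inequality is continuous from the left in `H` at
every time at which the dissipation is of type I along some sequence of scales.
-/

set_option autoImplicit false

open MeasureTheory Set Filter Topology
open scoped InnerProductSpace

namespace Pool.Agent.TH340.EE

open Pool.Agent.W795.HE
open H772R2.NSR (Frame prim_cont)
open H772R2.NSG (LH dft Coef ii_of_int)
open Pool.Agent.W795.TQ (FH Univ)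
open Pool.Agent.W933.HE (coef dft_sub)

section

variable {H K : Type} [NormedAddCommGroup H] [InnerProductSpace ℝ H] [CompleteSpace H]
  [NormedAddCommGroup K] [InnerProductSpace ℝ K] [CompleteSpace K]
variable {W : Submodule ℝ (H × K)} {m : H → K} {C c ν T τ : ℝ} {F F1 : ℝ → K} {x0 : H}
  {u : ℝ → H} {z : ℝ → K}

/-- good times close to `τ` at which the defect is almost `D(τ)` -/
theorem seq_bound (htp : S_tp) (hgrw : S_grw) (Fr : Frame W m C) (Un : Univ W m c) (hc : 0 < c)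
    (hν : 0 < ν) (hT : 0 < T) (hF : FH T F F1)
    (L : LH W m T (fun _ => ν) F x0 u z) (hSE : SE ν T F u z) (hτ : τ ∈ Ioc 0 T) {M : ℝ}
    (hM : ∃ᶠ t in 𝓝[<] τ, ∫ s in t..τ, ‖z s‖ ^ 2 ≤ M * Real.sqrt (τ - t)) :
    ∃ M' : ℝ, 0 ≤ M' ∧ ∀ δ : ℝ, 0 < δ →
      ∀ p : ℝ → Prop, (∀ᵐ s ∂(volume.restrict (Ioc 0 T)), p s) →
      ∃ t1 ∈ Ioo (τ - δ) τ, 0 < t1 ∧ p t1 ∧
        (∀ t ∈ Icc t1 T, dft (fun _ => ν) F x0 u z t1 ≤ dft (fun _ => ν) F x0 u z t) ∧
        dft (fun _ => ν) F x0 u z τ - dft (fun _ => ν) F x0 u z t1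
          ≤ M' * Real.sqrt (τ - t1) := by
  obtain ⟨M', hM'0, hM'⟩ := scale_bound htp hgrw Fr Un hc hν hT hF L hSE hτ (abs_nonneg M)
  refine ⟨M' * Real.sqrt 2, by positivity, fun δ hδ p hp => ?_⟩
  have h1 : Ioo (max (τ - δ) 0) τ ∈ 𝓝[<] τ := Ioo_mem_nhdsLT (max_lt (by linarith) hτ.1)
  obtain ⟨t, ht, ht2⟩ := (hM.and_eventually h1).exists
  have h2 := (le_max_left (τ - δ) 0).trans_lt ht2.1
  have h3 := (le_max_right (τ - δ) 0).trans_lt ht2.1
  obtain ⟨t1, ht1, hpt, hmono, hb⟩ := hM' (τ - t) (by linarith [ht2.2]) (by linarith) (by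
    rw [sub_sub_cancel]
    refine ht.trans ?_
    gcongr
    exact le_abs_self M) p hp
  refine ⟨t1, ⟨by linarith [ht1.1], by linarith [ht1.2, ht2.2]⟩, by linarith [ht1.1], hpt, hmono,
    hb.trans ?_⟩
  rw [mul_assoc, ← Real.sqrt_mul (by norm_num)]
  gcongr
  linarith [ht1.2]

/-- the same for the defect at earlier times -/
theorem freq_defect (htp : S_tp) (hgrw : S_grw) (Fr : Frame W m C) (Un : Univ W m c) (hc : 0 < c)
    (hν : 0 < ν) (hT : 0 < T) (hF : FH T F F1)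
    (L : LH W m T (fun _ => ν) F x0 u z) (hSE : SE ν T F u z) (hτ : τ ∈ Ioc 0 T) {M : ℝ}
    (hM : ∃ᶠ t in 𝓝[<] τ, ∫ s in t..τ, ‖z s‖ ^ 2 ≤ M * Real.sqrt (τ - t)) :
    ∃ M' : ℝ, ∃ᶠ t in 𝓝[<] τ, dft (fun _ => ν) F x0 u z τ - dft (fun _ => ν) F x0 u z t
          ≤ M' * Real.sqrt (τ - t) := by
  obtain ⟨M', hM'0, hM'⟩ := seq_bound htp hgrw Fr Un hc hν hT hF L hSE hτ hM
  refine ⟨M', ?_⟩
  rw [frequently_iff]
  intro U hU
  obtain ⟨l, hl, hsub⟩ := mem_nhdsLT_iff_exists_Ioo_subset.1 hU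
  obtain ⟨t1, ht1, -, -, -, hb⟩ := hM' (τ - l) (by linarith [mem_Iio.1 hl]) (fun _ => True)
    (Eventually.of_forall fun _ => trivial)
  rw [sub_sub_cancel] at ht1
  exact ⟨t1, hsub ht1, hb⟩

/-- weak continuity -/
theorem weak_tend (Fr : Frame W m C) (Co : Coef ν T (fun _ => ν) F) (hν : 0 < ν) (hT : 0 < T)
    (L : LH W m T (fun _ => ν) F x0 u z) {s : ℝ} (hs : s ∈ Icc 0 T) {v0 : H}
    (hv0 : v0 ∈ closure {v : H | ∃ ζ, (v, ζ) ∈ W}) :
    Tendsto (fun t => ⟪u t - u s, v0⟫_ℝ) (𝓝[Icc 0 T] s) (𝓝 0) := by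
  obtain ⟨M, hM⟩ := L.bdd hν.le Co
  have primc : ∀ f : ℝ → ℝ, Integrable f (volume.restrict (Ioc 0 T)) →
      ContinuousOn (fun t => ∫ s in (0 : ℝ)..t, f s) (Icc 0 T) := by
    intro f hf
    have hi : IntegrableOn f (uIcc 0 T) volume := by
      rw [uIcc_of_le hT.le, integrableOn_Icc_iff_integrableOn_Ioc]
      exact hf
    have := intervalIntegral.continuousOn_primitive_interval hi
    rwa [uIcc_of_le hT.le] at this
  have hweak : ∀ v ∈ {v : H | ∃ ζ, (v, ζ) ∈ W},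
      Tendsto (fun t => ⟪u t - u s, v⟫_ℝ) (𝓝[Icc 0 T] s) (𝓝 0) := by
    rintro v ⟨ζ, hζ⟩
    have hG : Integrable (fun r => ⟪F r - ν • z r + m (u r), ζ⟫_ℝ)
        (volume.restrict (Ioc 0 T)) := (L.Gi Fr Co).inner_const ζ
    have c1 := primc _ hG s hs
    have c2 : Tendsto (fun t => (∫ r in (0 : ℝ)..t, ⟪F r - ν • z r + m (u r), ζ⟫_ℝ) -
        ∫ r in (0 : ℝ)..s, ⟪F r - ν • z r + m (u r), ζ⟫_ℝ) (𝓝[Icc 0 T] s) (𝓝 0) := by
      have := Tendsto.sub_const c1 (∫ r in (0 : ℝ)..s, ⟪F r - ν • z r + m (u r), ζ⟫_ℝ)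
      rwa [sub_self] at this
    refine c2.congr' ?_
    filter_upwards [self_mem_nhdsWithin] with t ht
    have w1 := L.weak (v, ζ) hζ t ht
    have w2 := L.weak (v, ζ) hζ s hs
    simp only at w1 w2
    rw [← w1, ← w2, ← inner_sub_left]
    congr 1
    abel
  have hM0 : 0 ≤ M := (norm_nonneg _).trans (hM 0 ⟨le_rfl, hT.le⟩)
  rw [Metric.tendsto_nhds]
  intro ε hε
  obtain ⟨v, hv, hvd⟩ := Metric.mem_closure_iff.1 hv0 (ε / (2 * (2 * M + 1)))
    (by positivity)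
  have h1 := Metric.tendsto_nhds.1 (hweak v hv) (ε / 2) (by positivity)
  filter_upwards [h1, self_mem_nhdsWithin] with t ht1 ht2
  rw [Real.dist_eq, sub_zero] at ht1 ⊢
  have e1 : ⟪u t - u s, v0⟫_ℝ = ⟪u t - u s, v⟫_ℝ + ⟪u t - u s, v0 - v⟫_ℝ := by
    rw [← inner_add_right]
    congr 1
    abel
  have e2 : |⟪u t - u s, v0 - v⟫_ℝ| ≤ 2 * M * (ε / (2 * (2 * M + 1))) := by
    refine (abs_real_inner_le_norm _ _).trans ?_
    have b1 : ‖u t - u s‖ ≤ 2 * M := by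
      have := norm_sub_le (u t) (u s)
      have := hM t ht2
      have := hM s hs
      linarith
    have b2 : ‖v0 - v‖ ≤ ε / (2 * (2 * M + 1)) := by
      rw [← dist_eq_norm]
      exact hvd.le
    exact mul_le_mul b1 b2 (norm_nonneg _) (by positivity)
  have e3 : 2 * M * (ε / (2 * (2 * M + 1))) ≤ ε / 2 := by
    rw [mul_div_assoc', div_le_div_iff₀ (by positivity) (by norm_num)]
    nlinarith
  rw [e1]
  refine (abs_add_le _ _).trans_lt ?_
  linarith

/-- `u(τ)` is in the closure of `V` -/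
theorem mem_cl (htp : S_tp) (hgrw : S_grw) (Fr : Frame W m C) (Un : Univ W m c) (hc : 0 < c)
    (hν : 0 < ν) (hT : 0 < T) (hF : FH T F F1)
    (L : LH W m T (fun _ => ν) F x0 u z) (hSE : SE ν T F u z) (hτ : τ ∈ Ioc 0 T) {M : ℝ}
    (hM : ∃ᶠ t in 𝓝[<] τ, ∫ s in t..τ, ‖z s‖ ^ 2 ≤ M * Real.sqrt (τ - t)) :
    u τ ∈ closure {v : H | ∃ ζ, (v, ζ) ∈ W} := by
  have hFc : ContinuousOn F (Icc 0 T) := prim_cont hF.memLp hF.prim
  have Co : Coef ν T (fun _ => ν) F := coef hFc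
  set V0 : Submodule ℝ H := (W.map (LinearMap.fst ℝ H K)).topologicalClosure with hV0
  have hVc : (V0 : Set H) = closure {v : H | ∃ ζ, (v, ζ) ∈ W} := by
    rw [hV0, Submodule.topologicalClosure_coe]
    congr 1
    ext v
    simp
  have : CompleteSpace V0 := (Submodule.isClosed_topologicalClosure _).completeSpace_coe
  obtain ⟨v, hv⟩ : ∃ v, v = V0.starProjection (u τ) := ⟨_, rfl⟩
  have hvV : v ∈ V0 := by
    rw [hv]
    exact Submodule.starProjection_apply_mem V0 _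
  have hvo : ∀ w ∈ V0, ⟪u τ - v, w⟫_ℝ = 0 := by
    intro w hw
    rw [hv]
    exact Submodule.starProjection_inner_eq_zero _ _ hw
  have hnorm : ‖u τ‖ ^ 2 = ‖v‖ ^ 2 + ‖u τ - v‖ ^ 2 := by
    have h1 := norm_add_sq_real (u τ - v) v
    rw [sub_add_cancel, hvo v hvV] at h1
    linarith
  -- the modified solution
  obtain ⟨u', hu'⟩ : ∃ u' : ℝ → H, u' = Function.update u τ v := ⟨_, rfl⟩
  have hne : ∀ t, t ≠ τ → u' t = u t := by
    intro t ht
    rw [hu']
    exact Function.update_of_ne ht _ _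
  have heq : u' τ = v := by
    rw [hu']
    exact Function.update_self _ _ _
  have hae : ∀ᵐ s ∂(volume : Measure ℝ), u' s = u s := by
    have h1 : ∀ᵐ s ∂(volume : Measure ℝ), s ≠ τ := by
      rw [ae_iff]
      simp
    filter_upwards [h1] with s hs
    exact hne s hs
  have hae' : ∀ᵐ s ∂(volume.restrict (Ioc 0 T)), u' s = u s := ae_restrict_of_ae hae
  have hle : ∀ t, ‖u' t‖ ^ 2 ≤ ‖u t‖ ^ 2 := by
    intro t
    by_cases ht : t = τ
    · rw [ht, heq, hnorm]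
      have := sq_nonneg ‖u τ - v‖
      linarith
    · rw [hne t ht]
  have L' : LH W m T (fun _ => ν) F x0 u' z := by
    refine ⟨?_, ?_, ?_, ?_, L.z2, L.dis, ?_, ?_⟩
    · rw [hne 0 hτ.1.ne, L.init]
    · exact L.meas.congr (hae'.mono fun s hs => hs.symm)
    · exact L.mmeas.congr (hae'.mono fun s hs => by simp only [hs])
    · filter_upwards [L.mem, hae'] with s h1 h2
      rw [h2]
      exact h1
    · intro p hp t ht
      have e1 : (∫ s in (0 : ℝ)..t, ⟪F s - ν • z s + m (u' s), p.2⟫_ℝ)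
          = ∫ s in (0 : ℝ)..t, ⟪F s - ν • z s + m (u s), p.2⟫_ℝ := by
        refine intervalIntegral.integral_congr_ae ?_
        filter_upwards [hae] with s hs _
        rw [hs]
      rw [e1, ← L.weak p hp t ht]
      by_cases htt : t = τ
      · rw [htt, heq]
        have hp1 : p.1 ∈ V0 := Submodule.le_topologicalClosure _ ⟨p, hp, rfl⟩
        have := hvo p.1 hp1
        rw [inner_sub_left] at this ⊢
        rw [inner_sub_left]
        linarith
      · rw [hne t htt]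
    · intro t ht
      have h1 := L.energy t ht
      have h2 := hle t
      linarith
  have hSE' : SE ν T F u' z := by
    filter_upwards [hSE, hae'] with s hs hs2 t ht
    have h1 := hs t ht
    have h2 := hle t
    rw [hs2]
    linarith
  obtain ⟨M', hM'0, hM'⟩ := seq_bound htp hgrw Fr Un hc hν hT hF L' hSE' hτ hM
  have hDne : ∀ t, t ≠ τ → dft (fun _ => ν) F x0 u' z t = dft (fun _ => ν) F x0 u z t := by
    intro t ht
    unfold dft
    rw [hne t ht]
  have hDτ : dft (fun _ => ν) F x0 u' z τ = dft (fun _ => ν) F x0 u z τ + ‖u τ - v‖ ^ 2 / 2 := by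
    unfold dft
    rw [heq, hnorm]
    ring
  have hzero : ‖u τ - v‖ ^ 2 / 2 ≤ 0 := by
    refine le_of_forall_pos_le_add fun ε hε => ?_
    obtain ⟨t1, ht1, ht10, hp, -, hb⟩ := hM' ((ε / (M' + 1)) ^ 2) (by positivity)
      (fun s => ∀ t ∈ Icc s T, dft (fun _ => ν) F x0 u z s ≤ dft (fun _ => ν) F x0 u z t)
      (dft_mono_ae Co L hSE)
    have h1 := hp τ ⟨ht1.2.le, hτ.2⟩
    rw [hDτ, hDne t1 ht1.2.ne] at hb
    have h2 : Real.sqrt (τ - t1) ≤ ε / (M' + 1) := by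
      rw [← Real.sqrt_sq (show 0 ≤ ε / (M' + 1) by positivity)]
      exact Real.sqrt_le_sqrt (by linarith [ht1.1])
    have h3 : M' * Real.sqrt (τ - t1) ≤ ε := by
      calc M' * Real.sqrt (τ - t1) ≤ M' * (ε / (M' + 1)) := by gcongr
        _ ≤ ε := by
          rw [mul_div_assoc', div_le_iff₀ (by positivity)]
          nlinarith
    linarith
  have h4 : u τ - v = 0 := by
    have h5 := sq_nonneg ‖u τ - v‖
    have h6 : ‖u τ - v‖ ^ 2 = 0 := by linarith
    exact norm_eq_zero.1 (pow_eq_zero_iff (by norm_num) |>.1 h6)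
  rw [← hVc, sub_eq_zero.1 h4]
  exact hvV

/-- left continuity -/
theorem left_cont (htp : S_tp) (hgrw : S_grw) (Fr : Frame W m C) (Un : Univ W m c) (hc : 0 < c)
    (hν : 0 < ν) (hT : 0 < T) (hF : FH T F F1)
    (L : LH W m T (fun _ => ν) F x0 u z) (hSE : SE ν T F u z) (hτ : τ ∈ Ioc 0 T) {M : ℝ}
    (hM : ∃ᶠ t in 𝓝[<] τ, ∫ s in t..τ, ‖z s‖ ^ 2 ≤ M * Real.sqrt (τ - t)) :
    Tendsto u (𝓝[<] τ) (𝓝 (u τ)) := by
  have hFc : ContinuousOn F (Icc 0 T) := prim_cont hF.memLp hF.prim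
  have Co : Coef ν T (fun _ => ν) F := coef hFc
  have hcl := mem_cl htp hgrw Fr Un hc hν hT hF L hSE hτ hM
  obtain ⟨M', hM'0, hM'⟩ := seq_bound htp hgrw Fr Un hc hν hT hF L hSE hτ hM
  have hτI : τ ∈ Icc 0 T := ⟨hτ.1.le, hτ.2⟩
  have hle : 𝓝[<] τ ≤ 𝓝[Icc 0 T] τ := by
    rw [← nhdsWithin_Ico_eq_nhdsLT hτ.1]
    exact nhdsWithin_mono _ fun s hs => ⟨hs.1, hs.2.le.trans hτ.2⟩
  have a3 : Tendsto (fun t => ⟪u t - u τ, u τ⟫_ℝ) (𝓝[<] τ) (𝓝 0) :=
    (weak_tend Fr Co hν hT L hτI hcl).mono_left hle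
  have primc : ∀ f : ℝ → ℝ, Integrable f (volume.restrict (Ioc 0 T)) →
      Tendsto (fun t => ∫ s in t..τ, f s) (𝓝[<] τ) (𝓝 0) := by
    intro f hf
    have hi : IntegrableOn f (uIcc 0 T) volume := by
      rw [uIcc_of_le hT.le, integrableOn_Icc_iff_integrableOn_Ioc]
      exact hf
    have h1 := intervalIntegral.continuousOn_primitive_interval hi
    rw [uIcc_of_le hT.le] at h1
    have h2 : Tendsto (fun t => (∫ s in (0 : ℝ)..τ, f s) - ∫ s in (0 : ℝ)..t, f s)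
        (𝓝[Icc 0 T] τ) (𝓝 0) := by
      have := (tendsto_const_nhds (x := ∫ s in (0 : ℝ)..τ, f s)).sub (h1 τ hτI)
      rwa [sub_self] at this
    refine (h2.congr' ?_).mono_left hle
    filter_upwards [self_mem_nhdsWithin] with t ht
    rw [intervalIntegral.integral_interval_sub_left]
    · exact ii_of_int hf le_rfl hτ.1.le hτ.2
    · exact ii_of_int hf le_rfl ht.1 ht.2
  have a1 := primc _ (L.Fzi Co)
  have a2 := primc _ L.dis
  rw [tendsto_iff_norm_sub_tendsto_zero]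
  have hsq : Tendsto (fun t => ‖u t - u τ‖ ^ 2) (𝓝[<] τ) (𝓝 0) := by
    rw [Metric.tendsto_nhds]
    intro ε hε
    obtain ⟨t1, ht1, ht10, -, hmono, hb⟩ := hM' ((ε / 16 / (M' + 1)) ^ 2) (by positivity)
      (fun _ => True) (Eventually.of_forall fun _ => trivial)
    have h2 : Real.sqrt (τ - t1) ≤ ε / 16 / (M' + 1) := by
      rw [← Real.sqrt_sq (show 0 ≤ ε / 16 / (M' + 1) by positivity)]
      exact Real.sqrt_le_sqrt (by linarith [ht1.1])
    have h3 : M' * Real.sqrt (τ - t1) ≤ ε / 16 := by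
      calc M' * Real.sqrt (τ - t1) ≤ M' * (ε / 16 / (M' + 1)) := by gcongr
        _ ≤ ε / 16 := by
          rw [mul_div_assoc', div_le_iff₀ (by positivity)]
          nlinarith
    filter_upwards [Ioo_mem_nhdsLT ht1.2, Metric.tendsto_nhds.1 a1 (ε / 16) (by positivity),
      Metric.tendsto_nhds.1 a2 (ε / 16) (by positivity),
      Metric.tendsto_nhds.1 a3 (ε / 16) (by positivity)] with t ht b1 b2 b3
    rw [Real.dist_eq, sub_zero] at b1 b2 b3 ⊢
    have c1 := abs_lt.1 b1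
    have c2 := abs_lt.1 b2
    have c3 := abs_lt.1 b3
    have ht0 : 0 ≤ t := ht10.le.trans ht.1.le
    have h5 := dft_sub Co L ht0 ht.2.le hτ.2
    have h6 := hmono t ⟨ht.1.le, ht.2.le.trans hτ.2⟩
    have h7 : ‖u t‖ ^ 2 = ‖u τ‖ ^ 2 + 2 * ⟪u t - u τ, u τ⟫_ℝ + ‖u t - u τ‖ ^ 2 := by
      have h8 : u t = u τ + (u t - u τ) := by abel
      have h9 := norm_add_sq_real (u τ) (u t - u τ)
      rw [← h8, real_inner_comm] at h9
      linarith
    rw [abs_of_nonneg (by positivity)]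
    linarith [c1.1, c1.2, c2.1, c2.2, c3.1, c3.2]
  have h10 : (fun t => ‖u t - u τ‖) = fun t => Real.sqrt (‖u t - u τ‖ ^ 2) := by
    funext t
    rw [Real.sqrt_sq (norm_nonneg _)]
  rw [h10]
  have := (Real.continuous_sqrt.tendsto 0).comp hsq
  rwa [Real.sqrt_zero] at this

end

end Pool.Agent.TH340.EE
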