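import Pool.Agent.TH340.EE.Sard

/-!
For almost every level `y` the first time at which the defect is at least `y` is a bad time.
-/

set_option autoImplicit false

open MeasureTheory Set Filter Topology
open scoped InnerProductSpace ENNReal

namespace Pool.Agent.TH340.EE

open Pool.Agent.W585.HE (Sg not_Sg Gd low Sg_null)

/-- the first time at which a level is reached -/
theorem first_time {T : ℝ} {D : ℝ → ℝ} (hD0 : D 0 = 0)
    (husc : ∀ t ∈ Icc 0 T, ∀ a, D t < a → ∀ᶠ s in 𝓝[Icc 0 T] t, D s < a)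
    {t y : ℝ} (ht : t ∈ Icc 0 T) (hy : 0 < y) (hyt : y ≤ D t) :
    ∃ τ ∈ Ioc 0 t, y ≤ D τ ∧ ∀ s ∈ Ico 0 τ, D s < y := by
  obtain ⟨S, hS⟩ : ∃ S : Set ℝ, S = {s | s ∈ Icc 0 t ∧ y ≤ D s} := ⟨_, rfl⟩
  have hsub : S ⊆ Icc 0 t := fun s hs => by
    rw [hS] at hs
    exact hs.1
  have hsubT : Icc 0 t ⊆ Icc 0 T := Icc_subset_Icc_right ht.2
  have hclosed : IsClosed S := by
    rw [← closure_subset_iff_isClosed]
    intro x hx
    have hxI : x ∈ Icc 0 t := by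
      have := closure_mono hsub hx
      rwa [isClosed_Icc.closure_eq] at this
    rw [hS]
    refine ⟨hxI, ?_⟩
    by_contra hcon
    have h1 := husc x (hsubT hxI) y (not_le.1 hcon)
    rw [mem_closure_iff_frequently] at hx
    rw [eventually_nhdsWithin_iff] at h1
    obtain ⟨s, hs1, hs2⟩ := (hx.and_eventually h1).exists
    have h3 := hs2 (hsubT (hsub hs1))
    rw [hS] at hs1
    linarith [hs1.2]
  have hcomp : IsCompact S := isCompact_Icc.of_isClosed_subset hclosed hsub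
  have hne : S.Nonempty := ⟨t, by
    rw [hS]
    exact ⟨⟨ht.1, le_rfl⟩, hyt⟩⟩
  obtain ⟨τ, hτ⟩ := hcomp.exists_isLeast hne
  have hτS := hτ.1
  rw [hS] at hτS
  have h0 : τ ≠ 0 := by
    intro h
    have := hτS.2
    rw [h, hD0] at this
    linarith
  refine ⟨τ, ⟨lt_of_le_of_ne hτS.1.1 (Ne.symm h0), hτS.1.2⟩, hτS.2, fun s hs => ?_⟩
  by_contra hcon
  have h1 : s ∈ S := by
    rw [hS]
    exact ⟨⟨hs.1, hs.2.le.trans hτS.1.2⟩, not_lt.1 hcon⟩
  exact absurd (hτ.2 h1) (not_le.2 hs.2)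

/-- a measurable density -/
theorem meas_mod {T c : ℝ} {D y : ℝ → ℝ} (hy : ∀ s, 0 ≤ y s) (hint : IntegrableOn y (Ioc 0 T))
    (hgd : ∀ᵐ s ∂(volume.restrict (Ioc 0 T)), Gd T c D y s) :
    ∃ f : ℝ → ℝ, Measurable f ∧ (∀ s, 0 ≤ f s) ∧ IntegrableOn f (Ioc 0 T) ∧
      ∀ᵐ s ∂(volume.restrict (Ioc 0 T)), Gd T c D f s := by
  obtain ⟨g, hgm, hge⟩ := hint.aestronglyMeasurable.aemeasurable
  have hfe : y =ᵐ[volume.restrict (Ioc 0 T)] fun s => max (g s) 0 := by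
    filter_upwards [hge] with s hs
    have := hy s
    rw [hs] at this ⊢
    exact (max_eq_left this).symm
  refine ⟨fun s => max (g s) 0, hgm.max measurable_const, fun s => le_max_right _ _,
    hint.congr hfe, ?_⟩
  filter_upwards [hgd, hfe] with s hs hs2 t ht hts
  refine hs t ht ?_
  rw [hs2]
  exact hts

theorem sqrt_half_pow (k : ℕ) : Real.sqrt ((1 / 2 : ℝ) ^ k) = Real.sqrt (1 / 2) ^ k := by
  rw [Real.sqrt_eq_iff_mul_self_eq (by positivity) (by positivity), ← mul_pow,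
    Real.mul_self_sqrt (by norm_num)]

theorem summable_sqrt : Summable fun k : ℕ => Real.sqrt ((1 / 2 : ℝ) ^ k) := by
  have h : (fun k : ℕ => Real.sqrt ((1 / 2 : ℝ) ^ k)) = fun k => Real.sqrt (1 / 2) ^ k := by
    funext k
    exact sqrt_half_pow k
  rw [h]
  refine summable_geometric_of_lt_one (Real.sqrt_nonneg _) ?_
  rw [Real.sqrt_lt' one_pos]
  norm_num

/-- times with a small increment in most dyadic intervals, measured by weights -/
def OG (w : ℕ → ℝ) (D : ℝ → ℝ) (τ : ℝ) : Prop :=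
  ∃ M : ℝ, ∀ᶠ k : ℕ in atTop,
    ∃ᶠ s in ae (volume.restrict (Ioo (τ - (1 / 2) ^ k) (τ - (1 / 2) ^ (k + 1)))),
      w k * (D τ - D s) ≤ M * Real.sqrt ((1 / 2) ^ k)

/-- no jump from the left -/
theorem og_left {T : ℝ} {D : ℝ → ℝ} {w : ℕ → ℝ} (hw0 : ∀ k, 0 ≤ w k) (hw : ¬ Summable w)
    (hG : ∀ᵐ s ∂(volume.restrict (Ioc 0 T)), ∀ t ∈ Icc s T, D s ≤ D t) {τ : ℝ}
    (hτ : τ ∈ Ioc 0 T) (h : OG w D τ) {ε : ℝ} (hε : 0 < ε) :
    ∃ s ∈ Ioo 0 τ, (∀ r ∈ Icc s T, D s ≤ D r) ∧ D τ ≤ D s + ε := by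
  by_contra hcon
  push Not at hcon
  obtain ⟨M, hM⟩ := h
  apply hw
  have h0 : ∀ᶠ k : ℕ in atTop, (1 / 2 : ℝ) ^ k < τ :=
    (tendsto_pow_atTop_nhds_zero_of_lt_one (by norm_num) (by norm_num)).eventually
      (gt_mem_nhds hτ.1)
  have h1 : ∀ᶠ k : ℕ in atTop, w k ≤ M / ε * Real.sqrt ((1 / 2) ^ k) := by
    filter_upwards [hM, h0] with k hk hk0
    have hp : (0 : ℝ) < (1 / 2) ^ (k + 1) := by positivity
    have h2 : ∀ᵐ s ∂(volume.restrict (Ioo (τ - (1 / 2) ^ k) (τ - (1 / 2) ^ (k + 1)))),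
        ∀ t ∈ Icc s T, D s ≤ D t := by
      refine ae_mono (Measure.restrict_mono ?_ le_rfl) hG
      intro s hs
      exact ⟨by linarith [hs.1], by linarith [hs.2, hτ.2]⟩
    obtain ⟨s, hs1, hs2, hs3⟩ :=
      (hk.and_eventually (h2.and (ae_restrict_mem measurableSet_Ioo))).exists
    have h3 := hcon s ⟨by linarith [hs3.1], by linarith [hs3.2]⟩ hs2
    rw [div_mul_eq_mul_div, le_div_iff₀ hε]
    refine le_trans ?_ hs1
    exact mul_le_mul_of_nonneg_left (by linarith) (hw0 k)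
  have h2 : Summable fun k : ℕ => M / ε * Real.sqrt ((1 / 2 : ℝ) ^ k) := summable_sqrt.mul_left _
  refine Summable.of_norm_bounded_eventually h2 ?_
  rw [Nat.cofinite_eq_atTop]
  filter_upwards [h1] with k hk
  rw [Real.norm_of_nonneg (hw0 k)]
  exact hk

/-- the values at these times -/
theorem null_OG {T c B : ℝ} {D y : ℝ → ℝ} {w : ℕ → ℝ} (hc : 0 < c)
    (hD0 : ∀ t ∈ Icc 0 T, 0 ≤ D t) (hB : ∀ t ∈ Icc 0 T, D t ≤ B)
    (hG : ∀ᵐ s ∂(volume.restrict (Ioc 0 T)), ∀ t ∈ Icc s T, D s ≤ D t)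
    (hy : ∀ s, 0 ≤ y s) (hint : IntegrableOn y (Ioc 0 T))
    (hgood : ∀ᵐ s ∂(volume.restrict (Ioc 0 T)), ∀ t ∈ Icc s T, (t - s) * y s ^ 2 ≤ c →
      D t = D s)
    (hw0 : ∀ k, 0 ≤ w k) (hw : ¬ Summable w) :
    volume (D '' {τ | τ ∈ Ioc 0 T ∧ OG w D τ}) = 0 := by
  obtain ⟨Dr, hmono, hDr1, hDr2, hDr3⟩ := monotone_reg hD0 hB hG
  have hgd : ∀ᵐ s ∂(volume.restrict (Ioc 0 T)), Gd T c Dr y s := by
    filter_upwards [hgood, hG, hDr1, ae_restrict_mem measurableSet_Ioc] with s h1 h2 h3 h4 t ht hts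
    refine hDr3 s h4 h2 h3 t ht fun r hr => ?_
    refine h1 r ⟨hr.1, hr.2.trans ht.2⟩ ?_
    refine le_trans ?_ hts
    have : r - s ≤ t - s := by linarith [hr.2]
    gcongr
  obtain ⟨f, hfm, hf0, hfi, hgd⟩ := meas_mod hy hint hgd
  -- shifted weights
  obtain ⟨w', hw'⟩ : ∃ w' : ℕ → ℝ, w' = fun k => w (k - 1) := ⟨_, rfl⟩
  have hw'0 : ∀ k, 0 ≤ w' k := fun k => by
    rw [hw']
    exact hw0 _
  have hw's : ¬ Summable w' := by
    intro hs
    apply hw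
    have h1 := (summable_nat_add_iff 1).2 hs
    refine h1.congr fun k => ?_
    rw [hw']
    simp
  have hcov : D '' {τ | τ ∈ Ioc 0 T ∧ OG w D τ} ⊆ ((Dr '' (Ioo 0 T \ Sg T Dr)) ∪ {D T}) ∪
      ⋃ n : ℕ, Dr '' {t | t ∈ Sg T Dr ∧ (1 / 2 : ℝ) ^ n ≤ t ∧ ∀ k ≥ n,
        w' k * (Dr t - Dr (t - (1 / 2) ^ k)) ≤ n * Real.sqrt ((1 / 2) ^ k)} := by
    rintro _ ⟨τ, ⟨hτ, hog⟩, rfl⟩
    rcases hτ.2.eq_or_lt with heq | hlt
    · rw [heq]
      exact Or.inl (Or.inr rfl)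
    have hDτ : Dr τ = D τ := hDr2 τ hτ fun ε hε => og_left hw0 hw hG hτ hog hε
    rw [← hDτ]
    by_cases hS : τ ∈ Sg T Dr
    · right
      obtain ⟨M, hM⟩ := hog
      obtain ⟨n1, hn1⟩ := exists_nat_ge (|M| * Real.sqrt 2)
      obtain ⟨n2, hn2⟩ := eventually_atTop.1 hM
      obtain ⟨n3, hn3⟩ := exists_pow_lt_of_lt_one hτ.1 (by norm_num : (1 / 2 : ℝ) < 1)
      refine mem_iUnion.2 ⟨max n1 (max n2 n3) + 1, τ, ⟨hS, ?_, ?_⟩, rfl⟩
      · refine le_trans ?_ hn3.le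
        refine pow_le_pow_of_le_one (by norm_num) (by norm_num) ?_
        exact ((le_max_right _ _).trans (le_max_right _ _)).trans (Nat.le_succ _)
      · intro k hk
        obtain ⟨l, rfl⟩ : ∃ l, k = l + 1 := ⟨k - 1, by omega⟩
        have hl2 : n2 ≤ l := by
          have := (le_max_left n2 n3).trans (le_max_right n1 (max n2 n3))
          omega
        have hl3 : n3 ≤ l := by
          have := (le_max_right n2 n3).trans (le_max_right n1 (max n2 n3))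
          omega
        have hl0 : (1 / 2 : ℝ) ^ l < τ :=
          (pow_le_pow_of_le_one (by norm_num) (by norm_num) hl3).trans_lt hn3
        have hp : (0 : ℝ) < (1 / 2) ^ (l + 1) := by positivity
        have h2 : ∀ᵐ s ∂(volume.restrict (Ioo (τ - (1 / 2) ^ l) (τ - (1 / 2) ^ (l + 1)))),
            Dr s = D s := by
          refine ae_mono (Measure.restrict_mono ?_ le_rfl) hDr1
          intro s hs
          exact ⟨by linarith [hs.1], by linarith [hs.2, hτ.2]⟩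
        obtain ⟨s, hs1, hs2, hs3⟩ :=
          ((hn2 l hl2).and_eventually (h2.and (ae_restrict_mem measurableSet_Ioo))).exists
        have e1 : w' (l + 1) = w l := by
          rw [hw']
          simp
        rw [e1]
        have e2 : Dr s ≤ Dr (τ - (1 / 2) ^ (l + 1)) := hmono hs3.2.le
        have e3 : Real.sqrt ((1 / 2 : ℝ) ^ l) = Real.sqrt 2 * Real.sqrt ((1 / 2) ^ (l + 1)) := by
          rw [← Real.sqrt_mul (by norm_num)]
          congr 1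
          rw [pow_succ]
          ring
        calc w l * (Dr τ - Dr (τ - (1 / 2) ^ (l + 1))) ≤ w l * (D τ - D s) := by
              refine mul_le_mul_of_nonneg_left ?_ (hw0 l)
              rw [hDτ, ← hs2]
              linarith
          _ ≤ M * Real.sqrt ((1 / 2) ^ l) := hs1
          _ ≤ |M| * Real.sqrt ((1 / 2) ^ l) := by
              gcongr
              exact le_abs_self M
          _ = |M| * Real.sqrt 2 * Real.sqrt ((1 / 2) ^ (l + 1)) := by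
              rw [e3]
              ring
          _ ≤ _ := by
              refine mul_le_mul_of_nonneg_right (hn1.trans ?_) (Real.sqrt_nonneg _)
              have : n1 ≤ max n1 (max n2 n3) + 1 := (le_max_left _ _).trans (Nat.le_succ _)
              exact_mod_cast this
    · exact Or.inl (Or.inl ⟨τ, ⟨⟨hτ.1, hlt⟩, hS⟩, rfl⟩)
  refine measure_mono_null hcov ?_
  rw [measure_union_null_iff, measure_union_null_iff]
  refine ⟨⟨count_off.measure_zero _, by simp⟩, ?_⟩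
  refine measure_iUnion_null fun n => ?_
  exact null_A hc (hmono.monotoneOn _) hfm hf0 hfi hgd hw'0 hw's n

/-- almost every level is first reached at a bad time -/
theorem levels {T c B : ℝ} {D y : ℝ → ℝ} {w : ℕ → ℝ} {E N : Set ℝ} (hc : 0 < c)
    (hD00 : D 0 = 0) (hD0 : ∀ t ∈ Icc 0 T, 0 ≤ D t) (hB : ∀ t ∈ Icc 0 T, D t ≤ B)
    (husc : ∀ t ∈ Icc 0 T, ∀ a, D t < a → ∀ᶠ s in 𝓝[Icc 0 T] t, D s < a)
    (hG : ∀ᵐ s ∂(volume.restrict (Ioc 0 T)), ∀ t ∈ Icc s T, D s ≤ D t)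
    (hy : ∀ s, 0 ≤ y s) (hint : IntegrableOn y (Ioc 0 T))
    (hgood : ∀ᵐ s ∂(volume.restrict (Ioc 0 T)), ∀ t ∈ Icc s T, (t - s) * y s ^ 2 ≤ c →
      D t = D s)
    (hw0 : ∀ k, 0 ≤ w k) (hw : ¬ Summable w)
    (hE : volume (D '' E) = 0) (hEl : ∀ τ ∈ E, ∀ ε > 0, ∃ s ∈ Ioo 0 τ, D τ ≤ D s + ε)
    (hN : N.Countable) :
    ∀ᵐ b ∂(volume : Measure ℝ), ∀ t ∈ Icc 0 T, 0 < b → b ≤ D t →
      ∃ τ ∈ Ioc 0 t, (b ≤ D τ ∧ ∀ s ∈ Ico 0 τ, D s < b) ∧ τ ∉ E ∧ ¬ OG w D τ ∧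
        (τ ∈ N → ¬ ∀ ε > 0, ∃ s ∈ Ioo 0 τ, D τ ≤ D s + ε) := by
  have hO := null_OG (w := w) hc hD0 hB hG hy hint hgood hw0 hw
  have hNn : volume (D '' N) = 0 := (hN.image D).measure_zero _
  have key : ∀ᵐ b ∂(volume : Measure ℝ), b ∉ D '' E ∪ D '' {τ | τ ∈ Ioc 0 T ∧ OG w D τ} ∪ D '' N := by
    rw [ae_iff]
    simp only [not_not, ofPred_mem_eq]
    rw [measure_union_null_iff, measure_union_null_iff]
    exact ⟨⟨hE, hO⟩, hNn⟩
  filter_upwards [key] with b hb t ht hb0 hbt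
  obtain ⟨τ, hτ, h1, h2⟩ := first_time hD00 husc ht hb0 hbt
  have hτT : τ ∈ Ioc 0 T := ⟨hτ.1, hτ.2.trans ht.2⟩
  have heq : (∀ ε > 0, ∃ s ∈ Ioo 0 τ, D τ ≤ D s + ε) → D τ = b := by
    intro h
    refine le_antisymm (le_of_forall_pos_le_add fun ε hε => ?_) h1
    obtain ⟨s, hs, hs2⟩ := h ε hε
    have := h2 s ⟨hs.1.le, hs.2⟩
    linarith
  refine ⟨τ, hτ, ⟨h1, h2⟩, ?_, ?_, ?_⟩
  · intro h
    exact hb (Or.inl (Or.inl ⟨τ, h, heq (hEl τ h)⟩))
  · intro h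
    refine hb (Or.inl (Or.inr ⟨τ, ⟨hτT, h⟩, heq fun ε hε => ?_⟩))
    obtain ⟨s, hs, -, hs2⟩ := og_left hw0 hw hG hτT h hε
    exact ⟨s, hs, hs2⟩
  · intro h h3
    exact hb (Or.inr ⟨τ, h, heq h3⟩)

end Pool.Agent.TH340.EE
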