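import Pool.Agent.TH340.EE.Lev

/-!
Where the energy defect is produced: abstract form.
-/

set_option autoImplicit false

open MeasureTheory Set Filter Topology
open scoped InnerProductSpace

namespace Pool.Agent.TH340.EE

open Pool.Agent.W795.HE
open H772R2.NSR (Frame prim_cont)
open H772R2.NSG (LH dft Coef ii_of_int)
open Pool.Agent.W795.TQ (FH Univ S_univ)
open Pool.Agent.W933.HE (coef dft_sub)

/-- truncated weights -/
theorem trunc {w : ℕ → ℝ} (hw0 : ∀ k, 0 ≤ w k) (hw : ¬ Summable w) :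
    ∃ w' : ℕ → ℝ, (∀ k, 0 ≤ w' k) ∧ (∀ k, w' k ≤ 1) ∧ (∀ k, w' k ≤ w k) ∧ ¬ Summable w' := by
  refine ⟨fun k => min (w k) 1, fun k => le_min (hw0 k) zero_le_one, fun k => min_le_right _ _,
    fun k => min_le_left _ _, fun hs => hw ?_⟩
  have h1 : ∀ᶠ k in atTop, min (w k) 1 < 1 := hs.tendsto_atTop_zero.eventually (gt_mem_nhds one_pos)
  refine (summable_congr_cofinite (f := fun k => min (w k) 1) (g := w) ?_).1 hs
  rw [Nat.cofinite_eq_atTop]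
  filter_upwards [h1] with k hk
  rcases min_choice (w k) 1 with h2 | h2
  · exact h2
  · rw [h2] at hk
    exact absurd hk (lt_irrefl _)

section

variable {H K : Type} [NormedAddCommGroup H] [InnerProductSpace ℝ H] [CompleteSpace H]
  [NormedAddCommGroup K] [InnerProductSpace ℝ K] [CompleteSpace K]
variable {W : Submodule ℝ (H × K)} {m : H → K} {C c ν T : ℝ} {F F1 : ℝ → K} {x0 : H}
  {u : ℝ → H} {z : ℝ → K}

/-- primitives are continuous -/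
theorem prim_c (hT : 0 < T) {f : ℝ → ℝ} (hf : Integrable f (volume.restrict (Ioc 0 T))) :
    ContinuousOn (fun t => ∫ s in (0 : ℝ)..t, f s) (Icc 0 T) := by
  have hi : IntegrableOn f (uIcc 0 T) volume := by
    rw [uIcc_of_le hT.le, integrableOn_Icc_iff_integrableOn_Ioc]
    exact hf
  have := intervalIntegral.continuousOn_primitive_interval hi
  rwa [uIcc_of_le hT.le] at this

/-- upper semicontinuity of the defect -/
theorem dft_usc (Fr : Frame W m C) (Co : Coef ν T (fun _ => ν) F) (hν : 0 < ν) (hT : 0 < T)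
    (L : LH W m T (fun _ => ν) F x0 u z) {t : ℝ} (ht : t ∈ Icc 0 T)
    (hcl : u t ∈ closure {v : H | ∃ ζ, (v, ζ) ∈ W}) (a : ℝ)
    (hta : dft (fun _ => ν) F x0 u z t < a) :
    ∀ᶠ s in 𝓝[Icc 0 T] t, dft (fun _ => ν) F x0 u z s < a := by
  set D : ℝ → ℝ := dft (fun _ => ν) F x0 u z with hD
  have cP := prim_c hT (L.Fzi Co)
  have cQ := prim_c hT L.dis
  have hw := weak_tend Fr Co hν hT L ht hcl
  have up : Tendsto (fun r => D t + ((∫ s in (0 : ℝ)..r, ⟪F s, z s⟫_ℝ) -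
      (∫ s in (0 : ℝ)..t, ⟪F s, z s⟫_ℝ)) - ((∫ s in (0 : ℝ)..r, ν * ‖z s‖ ^ 2) -
      (∫ s in (0 : ℝ)..t, ν * ‖z s‖ ^ 2)) - ⟪u r - u t, u t⟫_ℝ) (𝓝[Icc 0 T] t) (𝓝 (D t)) := by
    have a1 := Tendsto.sub_const (cP t ht) (∫ s in (0 : ℝ)..t, ⟪F s, z s⟫_ℝ)
    have a2 := Tendsto.sub_const (cQ t ht) (∫ s in (0 : ℝ)..t, ν * ‖z s‖ ^ 2)
    have a4 := ((a1.const_add (D t)).sub a2).sub hw
    simpa using a4
  filter_upwards [up.eventually (gt_mem_nhds hta)] with r hr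
  refine lt_of_le_of_lt ?_ hr
  have e4 : ‖u r‖ ^ 2 = ‖u t‖ ^ 2 + 2 * ⟪u r - u t, u t⟫_ℝ + ‖u r - u t‖ ^ 2 := by
    have h5 : u r = u t + (u r - u t) := by abel
    have h6 := norm_add_sq_real (u t) (u r - u t)
    rw [← h5, real_inner_comm] at h6
    linarith
  have h7 : 0 ≤ ‖u r - u t‖ ^ 2 := by positivity
  simp only [hD, dft]
  linarith

/-- left continuity of the defect at a time of left continuity of `u` -/
theorem dft_left (Co : Coef ν T (fun _ => ν) F) (hT : 0 < T)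
    (L : LH W m T (fun _ => ν) F x0 u z) {t : ℝ} (ht : t ∈ Ioc 0 T)
    (hl : Tendsto u (𝓝[<] t) (𝓝 (u t))) {ε : ℝ} (hε : 0 < ε) :
    ∃ s ∈ Ioo 0 t, dft (fun _ => ν) F x0 u z t ≤ dft (fun _ => ν) F x0 u z s + ε := by
  have cP := prim_c hT (L.Fzi Co)
  have cQ := prim_c hT L.dis
  have hle : 𝓝[<] t ≤ 𝓝[Icc 0 T] t := by
    rw [← nhdsWithin_Ico_eq_nhdsLT ht.1]
    exact nhdsWithin_mono _ fun s hs => ⟨hs.1, hs.2.le.trans ht.2⟩
  have t1 : Tendsto (fun t => ∫ s in (0 : ℝ)..t, ⟪F s, z s⟫_ℝ) (𝓝[<] t)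
      (𝓝 (∫ s in (0 : ℝ)..t, ⟪F s, z s⟫_ℝ)) := (cP t (Ioc_subset_Icc_self ht)).mono_left hle
  have t2 : Tendsto (fun t => ∫ s in (0 : ℝ)..t, ν * ‖z s‖ ^ 2) (𝓝[<] t)
      (𝓝 (∫ s in (0 : ℝ)..t, ν * ‖z s‖ ^ 2)) := (cQ t (Ioc_subset_Icc_self ht)).mono_left hle
  have t3 : Tendsto (fun s => ‖u s‖ ^ 2 / 2) (𝓝[<] t) (𝓝 (‖u t‖ ^ 2 / 2)) :=
    (hl.norm.pow 2).div_const 2
  have h4 : Tendsto (dft (fun _ => ν) F x0 u z) (𝓝[<] t) (𝓝 (dft (fun _ => ν) F x0 u z t)) :=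
    ((t1.const_add (‖x0‖ ^ 2 / 2)).sub t3).sub t2
  have h5 := h4.eventually (lt_mem_nhds (show dft (fun _ => ν) F x0 u z t - ε
    < dft (fun _ => ν) F x0 u z t by linarith))
  obtain ⟨s, hs1, hs2⟩ := (h5.and (Ioo_mem_nhdsLT ht.1)).exists
  exact ⟨s, hs2, by linarith⟩

/-- the defect and the loss of kinetic energy -/
theorem dft_loss (hν : 0 < ν) {Φ : ℝ} (hΦ : ∀ t ∈ Icc 0 T, ‖F t‖ ≤ Φ)
    (Co : Coef ν T (fun _ => ν) F) (L : LH W m T (fun _ => ν) F x0 u z) {a b : ℝ} (ha : 0 ≤ a)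
    (hab : a ≤ b) (hb : b ≤ T) :
    dft (fun _ => ν) F x0 u z b - dft (fun _ => ν) F x0 u z a ≤
      (‖u a‖ ^ 2 - ‖u b‖ ^ 2) / 2 + Φ ^ 2 / (2 * ν) * (b - a) := by
  have e1 := dft_sub Co L ha hab hb
  rw [intervalIntegral.integral_const_mul] at e1
  have e2 := Fz_le hν hΦ Co L (show 0 < 2 * ν by positivity) ha hab hb
  have e3 := (abs_le.1 e2).2
  have e4 : 0 ≤ ∫ s in a..b, ‖z s‖ ^ 2 :=
    intervalIntegral.integral_nonneg hab fun s _ => by positivity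
  have e6 : Φ ^ 2 / (2 * (2 * ν)) * (b - a) ≤ Φ ^ 2 / (2 * ν) * (b - a) := by
    have : 0 ≤ b - a := by linarith
    gcongr
    linarith
  have e7 : 2 * ν / 2 * (∫ s in a..b, ‖z s‖ ^ 2) = ν * ∫ s in a..b, ‖z s‖ ^ 2 := by ring
  rw [e7] at e3
  linarith

theorem lev_abs (htp : S_tp) (hgrw : S_grw) (hreg : S_reg) (hsh : S_shift)
    (Fr : Frame W m C) (Un : Univ W m c) (hc : 0 < c)
    (hcomp : ∀ R : ℝ, TotallyBounded {v : H | ∃ z, (v, z) ∈ W ∧ ‖z‖ ≤ R})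
    (hν : 0 < ν) (hT : 0 < T) (hF : FH T F F1)
    (L : LH W m T (fun _ => ν) F x0 u z) (hSE : SE ν T F u z)
    (hcl : ∀ t ∈ Icc 0 T, u t ∈ closure {v : H | ∃ ζ, (v, ζ) ∈ W})
    {w : ℕ → ℝ} (hw0 : ∀ k, 0 ≤ w k) (hw : ¬ Summable w) {N : Set ℝ} (hN : N.Countable) :
    ∀ᵐ b ∂(volume : Measure ℝ), ∀ t ∈ Icc 0 T, 0 < b → b ≤ dft (fun _ => ν) F x0 u z t →
      ∃ τ ∈ Ioc 0 t, (b ≤ dft (fun _ => ν) F x0 u z τ ∧
          ∀ s ∈ Ico 0 τ, dft (fun _ => ν) F x0 u z s < b) ∧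
        Tendsto (fun h => (∫ s in (τ - h)..τ, ‖z s‖ ^ 2) / Real.sqrt h) (𝓝[>] 0) atTop ∧
        (∀ M : ℝ, ∃ᶠ k : ℕ in atTop,
          ∀ᵐ s ∂(volume.restrict (Ioo (τ - (1 / 2) ^ k) (τ - (1 / 2) ^ (k + 1)))),
            M * Real.sqrt ((1 / 2) ^ k) < w k * (‖u s‖ ^ 2 - ‖u τ‖ ^ 2)) ∧
        (τ ∈ N → ¬ Tendsto u (𝓝[<] τ) (𝓝 (u τ))) := by
  have hFc : ContinuousOn F (Icc 0 T) := prim_cont hF.memLp hF.prim
  have Co : Coef ν T (fun _ => ν) F := coef hFc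
  obtain ⟨ε1, hε1, hcc⟩ := const_ae hreg hsh c hc
  obtain ⟨Kc, hK0, hae⟩ := hcc H K W m C ν T F F1 x0 u z Fr Un hcomp hν hT hF L hSE
  have hν32 : 0 < ν ^ (3 / 2 : ℝ) := Real.rpow_pos_of_pos hν _
  obtain ⟨B, hB0, hB⟩ := dft_bdd Co hν L
  obtain ⟨Φ, hΦ0, hΦ⟩ := force_bd hF
  have hm := dft_mono_ae Co L hSE
  have hD0 : ∀ t ∈ Icc 0 T, 0 ≤ dft (fun _ => ν) F x0 u z t := fun t ht => dft_nonneg Co L ht
  have hD00 : dft (fun _ => ν) F x0 u z 0 = 0 := by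
    simp [dft, L.init]
  have hyi : IntegrableOn (fun s => ‖z s‖ ^ 2) (Ioc 0 T) := zsq_int L
  have hyK : IntegrableOn (fun s => ‖z s‖ ^ 2 + Kc) (Ioc 0 T) := by
    have : IntegrableOn (fun _ : ℝ => Kc) (Ioc 0 T) := integrable_const Kc
    exact hyi.add this
  have hE := null_E htp hgrw hreg hsh Fr Un hc hcomp hν hT hF L hSE
  obtain ⟨w', hw'0, hw'1, hw'w, hw's⟩ := trunc hw0 hw
  have key := levels (N := N) (show 0 < (ε1 * ν ^ (3 / 2 : ℝ)) ^ 2 by positivity) hD00 hD0 hB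
    (fun t ht a hta => dft_usc Fr Co hν hT L ht (hcl t ht) a hta) hm
    (y := fun s => ‖z s‖ ^ 2 + Kc) (fun s => by positivity) hyK hae hw'0 hw's hE
    (by
      rintro τ ⟨hτ, M, hM⟩ ε hε
      exact dft_left Co hT L hτ (left_cont htp hgrw Fr Un hc hν hT hF L hSE hτ hM) hε) hN
  filter_upwards [key] with b hb t ht hb0 hbt
  obtain ⟨τ, hτ, h1, h2, h3, h4⟩ := hb t ht hb0 hbt
  have hτT : τ ∈ Ioc 0 T := ⟨hτ.1, hτ.2.trans ht.2⟩
  refine ⟨τ, hτ, h1, ?_, ?_, fun h hl => h4 h fun ε hε => dft_left Co hT L hτT hl hε⟩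
  · rw [tendsto_atTop]
    intro M
    have h5 : ∀ᶠ t in 𝓝[<] τ, M * Real.sqrt (τ - t) < ∫ s in t..τ, ‖z s‖ ^ 2 := by
      have h6 : ¬ ∃ᶠ t in 𝓝[<] τ, ∫ s in t..τ, ‖z s‖ ^ 2 ≤ M * Real.sqrt (τ - t) :=
        fun h => h2 ⟨hτT, M, h⟩
      rw [not_frequently] at h6
      exact h6.mono fun t ht => not_le.1 ht
    have h7 : Tendsto (fun h => τ - h) (𝓝[>] (0 : ℝ)) (𝓝[<] τ) := by
      refine tendsto_nhdsWithin_iff.2 ⟨?_, ?_⟩
      · have : Tendsto (fun h : ℝ => τ - h) (𝓝 0) (𝓝 (τ - 0)) :=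
          tendsto_const_nhds.sub tendsto_id
        rw [sub_zero] at this
        exact this.mono_left nhdsWithin_le_nhds
      · filter_upwards [self_mem_nhdsWithin] with h hh
        rw [mem_Iio]
        linarith [mem_Ioi.1 hh]
    filter_upwards [h7.eventually h5, self_mem_nhdsWithin] with h hh hh0
    rw [sub_sub_cancel] at hh
    rw [le_div_iff₀ (Real.sqrt_pos.2 hh0)]
    exact hh.le
  · intro M
    by_contra hcon
    rw [not_frequently] at hcon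
    refine h3 ⟨|M| / 2 + Φ ^ 2 / (2 * ν), ?_⟩
    have h0 : ∀ᶠ k : ℕ in atTop, (1 / 2 : ℝ) ^ k < τ :=
      (tendsto_pow_atTop_nhds_zero_of_lt_one (by norm_num) (by norm_num)).eventually
        (gt_mem_nhds hτ.1)
    filter_upwards [hcon, h0] with k hk hk0
    have hk1 : ∃ᶠ s in ae (volume.restrict (Ioo (τ - (1 / 2 : ℝ) ^ k) (τ - (1 / 2) ^ (k + 1)))),
        ¬ M * Real.sqrt ((1 / 2) ^ k) < w k * (‖u s‖ ^ 2 - ‖u τ‖ ^ 2) := not_eventually.1 hk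
    have hp : (0 : ℝ) < (1 / 2) ^ (k + 1) := by positivity
    refine (hk1.and_eventually (ae_restrict_mem measurableSet_Ioo)).mono ?_
    rintro s ⟨hs, hsI⟩
    have hs' := not_lt.1 hs
    set l : ℝ := (1 / 2 : ℝ) ^ k with hl
    have hl0 : 0 < l := by positivity
    have hl1 : l ≤ 1 := pow_le_one₀ (by norm_num) (by norm_num)
    have hsl : 0 ≤ Real.sqrt l := Real.sqrt_nonneg _
    have hls : l ≤ Real.sqrt l := by
      have h1 : Real.sqrt l ≤ 1 := Real.sqrt_le_one.2 hl1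
      calc l = Real.sqrt l * Real.sqrt l := (Real.mul_self_sqrt hl0.le).symm
        _ ≤ 1 * Real.sqrt l := by gcongr
        _ = Real.sqrt l := one_mul _
    have e5 := dft_loss hν hΦ Co L (show 0 ≤ s by linarith [hsI.1])
      (show s ≤ τ by linarith [hsI.2]) hτT.2
    have hwk := hw'0 k
    have h3 : w' k * (‖u s‖ ^ 2 - ‖u τ‖ ^ 2) ≤ |M| * Real.sqrt l := by
      rcases le_total 0 (‖u s‖ ^ 2 - ‖u τ‖ ^ 2) with hs | hs
      · calc w' k * (‖u s‖ ^ 2 - ‖u τ‖ ^ 2) ≤ w k * (‖u s‖ ^ 2 - ‖u τ‖ ^ 2) := by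
              have := hw'w k
              gcongr
          _ ≤ M * Real.sqrt l := hs'
          _ ≤ |M| * Real.sqrt l := by
              gcongr
              exact le_abs_self M
      · exact (mul_nonpos_of_nonneg_of_nonpos hwk hs).trans (by positivity)
    have h8 : τ - s ≤ l := by linarith [hsI.1]
    have h9 : 0 ≤ τ - s := by linarith [hsI.2]
    calc w' k * (dft (fun _ => ν) F x0 u z τ - dft (fun _ => ν) F x0 u z s)
        ≤ w' k * ((‖u s‖ ^ 2 - ‖u τ‖ ^ 2) / 2 + Φ ^ 2 / (2 * ν) * (τ - s)) := by gcongr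
      _ = w' k * (‖u s‖ ^ 2 - ‖u τ‖ ^ 2) / 2 + w' k * (Φ ^ 2 / (2 * ν) * (τ - s)) := by ring
      _ ≤ |M| * Real.sqrt l / 2 + 1 * (Φ ^ 2 / (2 * ν) * Real.sqrt l) := by
          have := hw'1 k
          have h10 : τ - s ≤ Real.sqrt l := h8.trans hls
          gcongr
      _ = (|M| / 2 + Φ ^ 2 / (2 * ν)) * Real.sqrt l := by ring

end

end Pool.Agent.TH340.EE
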