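import Pool.Agent.TH340.EE.LevA
import Pool.Agent.W795.HE.PubB

/-!
Where the energy defect is produced, in terms of the public definitions.
-/

set_option autoImplicit false

open MeasureTheory Set Filter Topology
open scoped InnerProductSpace ENNReal ContDiff

namespace Pool.Agent.TH340.EE

open H772R2.NS H772R2.NS.Pub H772R2.NSR H772R2.NSG
open Pool.Agent.W795.TQ
open Pool.Agent.W795.HE

theorem lev_mid (htp : S_tp) (hgrw : S_grw) (hreg : S_reg) (hsh : S_shift) (hun : S_univ) :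
    ∀ (Ω : Set E3), IsOpen Ω → Bornology.IsBounded Ω → ∀ (ν T : ℝ), 0 < ν → 0 < T →
    ∀ (F F' : ℝ → L2M Ω), MemLp F' 2 (volume.restrict (Ioc 0 T)) →
    (∀ a b, 0 ≤ a → a ≤ b → b ≤ T → F b - F a = ∫ s in a..b, F' s) →
    ∀ (u : ℝ → L2V Ω) (z : ℝ → L2M Ω), IsLerayHopf (show Set R3 from Ω) ν T F u z →
    StrongEnergy (Ω := (show Set R3 from Ω)) ν T F u z →
    (∀ t ∈ Icc 0 T, u t ∈ closure {v : L2V Ω | ∃ g : L2M Ω, (v, g) ∈ graphW Ω}) →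
    ∀ w : ℕ → ℝ, (∀ k, 0 ≤ w k) → ¬ Summable w →
    ∀ N : Set ℝ, N.Countable → ∀ D : ℝ → ℝ, (∀ t, D t = ‖u 0‖ ^ 2 / 2 +
      (∫ s in (0 : ℝ)..t, ⟪F s, z s⟫_ℝ) - ‖u t‖ ^ 2 / 2 - ν * ∫ s in (0 : ℝ)..t, ‖z s‖ ^ 2) →
    ∀ᵐ b ∂(volume : Measure ℝ), ∀ t ∈ Icc 0 T, 0 < b → b ≤ D t →
      ∃ τ ∈ Ioc 0 t, (b ≤ D τ ∧ ∀ s ∈ Ico 0 τ, D s < b) ∧
        Tendsto (fun h => (∫ s in (τ - h)..τ, ‖z s‖ ^ 2) / Real.sqrt h) (𝓝[>] 0) atTop ∧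
        (∀ M : ℝ, ∃ᶠ k : ℕ in atTop,
          ∀ᵐ s ∂(volume.restrict (Ioo (τ - (1 / 2) ^ k) (τ - (1 / 2) ^ (k + 1)))),
            M * Real.sqrt ((1 / 2) ^ k) < w k * (‖u s‖ ^ 2 - ‖u τ‖ ^ 2)) ∧
        (τ ∈ N → ¬ Tendsto u (𝓝[<] τ) (𝓝 (u τ))) := by
  intro Ω hΩ hb ν T hν hT F F' hF1 hF u z L hSE hcl w hw0 hw N hN D hD
  obtain ⟨C, Fr, hLH⟩ := pub_lh hΩ hb hF1 hF L
  obtain ⟨c, hc, hU⟩ := hun
  have h := lev_abs htp hgrw hreg hsh Fr (hU _ hΩ) hc (rellich_W hΩ hb) hν hT ⟨hF1, hF⟩ hLH hSE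
    hcl hw0 hw hN
  have hDD : D = dft (fun _ => ν) F (u 0) u z := by
    funext t
    rw [hD t]
    unfold dft
    rw [intervalIntegral.integral_const_mul]
  rw [hDD]
  exact h

end Pool.Agent.TH340.EE
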