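import Pool.Agent.W585.HE.Meas

/-!
A continuous nondecreasing function `D` on `[0,T]` which is constant near the times at which an
integrable function `y` is small is constant, if at all but countably many points `t` either
`D t - D s = O(√(t - s))` along SOME sequence `s → t-`, or
`w_k (D t - D (t - 2^{-k})) = O(2^{-k/2})` with fixed weights `w_k ≥ 0`, `∑ w_k = ∞`.
-/

set_option autoImplicit false

open MeasureTheory Set Filter Topology
open scoped ENNReal

namespace Pool.Agent.TH340.EE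

open Pool.Agent.W585.HE (Sg not_Sg Gd low Sg_null)

/-- away from `Sg` the function takes countably many values -/
theorem count_off {T : ℝ} {D : ℝ → ℝ} : (D '' (Ioo 0 T \ Sg T D)).Countable := by
  refine (Set.countable_range (fun q : ℚ => D (q : ℝ))).mono ?_
  rintro _ ⟨t, ⟨ht, hS⟩, rfl⟩
  obtain ⟨ε, hε, h⟩ := not_Sg ht hS
  have h1 : max (t - ε) 0 < min (t + ε) T := by
    rw [max_lt_iff, lt_min_iff, lt_min_iff]
    refine ⟨⟨by linarith, by linarith [ht.2]⟩, by linarith [ht.1], ht.1.trans ht.2⟩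
  obtain ⟨q, hq1, hq2⟩ := exists_rat_btwn h1
  have a1 := (max_lt_iff.1 hq1)
  have a2 := (lt_min_iff.1 hq2)
  exact ⟨q, h q ⟨a1.1, a2.1⟩ ⟨a1.2.le, a2.2.le⟩⟩

/-- lower bound of the mass before a time in `Sg` -/
theorem mass_low {T c : ℝ} {D f : ℝ → ℝ} (hc : 0 < c) (hf0 : ∀ s, 0 ≤ f s)
    (hgd : ∀ᵐ s ∂(volume.restrict (Ioc 0 T)), Gd T c D f s) {t s : ℝ} (ht : t ∈ Sg T D)
    (hs : 0 ≤ s) (hst : s < t) :
    ENNReal.ofReal (Real.sqrt c * Real.sqrt (t - s)) ≤
      ((volume.restrict (Ioc 0 T)).withDensity (fun x => ENNReal.ofReal (f x))) (Ioc s t) := by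
  have hts : 0 < t - s := by linarith
  have hsq : 0 < Real.sqrt (t - s) := Real.sqrt_pos.2 hts
  have hsub : Ioc s t ⊆ Ioc 0 T := fun x hx => ⟨hs.trans_lt hx.1, hx.2.trans ht.1.2.le⟩
  rw [withDensity_apply _ measurableSet_Ioc, Measure.restrict_restrict measurableSet_Ioc,
      inter_eq_left.2 hsub]
  have e2 : ∫⁻ _ in Ioc s t, ENNReal.ofReal (Real.sqrt c / Real.sqrt (t - s)) ≤
      ∫⁻ a in Ioc s t, ENNReal.ofReal (f a) := by
    refine lintegral_mono_ae ?_
    rw [ae_restrict_iff' measurableSet_Ioc]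
    rw [ae_restrict_iff' measurableSet_Ioc] at hgd
    have hne : ∀ᵐ a ∂(volume : Measure ℝ), a ≠ t := by
      rw [ae_iff]
      simp
    filter_upwards [hgd, hne] with a ha hat haI
    refine ENNReal.ofReal_le_ofReal ?_
    have hat' : a < t := lt_of_le_of_ne haI.2 hat
    have h1 := low (ha (hsub haI)) ht hat'
    rw [div_le_iff₀ hsq]
    refine Real.sqrt_le_iff.2 ⟨mul_nonneg (hf0 a) hsq.le, ?_⟩
    rw [mul_pow, Real.sq_sqrt hts.le]
    calc c ≤ (t - a) * f a ^ 2 := h1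
      _ ≤ (t - s) * f a ^ 2 := mul_le_mul_of_nonneg_right (by linarith [haI.1]) (sq_nonneg _)
      _ = f a ^ 2 * (t - s) := by ring
  refine le_trans (le_of_eq ?_) e2
  rw [setLIntegral_const, Real.volume_Ioc, ← ENNReal.ofReal_mul (by positivity)]
  congr 1
  have h3 : Real.sqrt (t - s) * Real.sqrt (t - s) = t - s := Real.mul_self_sqrt hts.le
  rw [div_mul_eq_mul_div, eq_div_iff hsq.ne', mul_assoc, h3]

theorem mass_Sg {T c : ℝ} {D f : ℝ → ℝ} (hc : 0 < c)
    (hgd : ∀ᵐ s ∂(volume.restrict (Ioc 0 T)), Gd T c D f s) :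
    ((volume.restrict (Ioc 0 T)).withDensity (fun x => ENNReal.ofReal (f x))) (Sg T D) = 0 := by
  have hS0 : volume (Sg T D) = 0 := Sg_null hc hgd
  refine withDensity_absolutelyContinuous _ _ ?_
  exact le_antisymm ((Measure.restrict_apply_le _ _).trans hS0.le) (zero_le)

/-- the times at which `D t - D s ≤ n √(t - s)` for some `s` arbitrarily close to `t` -/
theorem null_B {T c : ℝ} (hc : 0 < c) {D f : ℝ → ℝ} (hD : MonotoneOn D (Icc 0 T))
    (hf0 : ∀ s, 0 ≤ f s) (hfi : IntegrableOn f (Ioc 0 T))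
    (hgd : ∀ᵐ s ∂(volume.restrict (Ioc 0 T)), Gd T c D f s) {n : ℝ} (hn : 0 ≤ n) :
    volume (D '' {t | t ∈ Sg T D ∧ ∃ᶠ s in 𝓝[<] t, D t - D s ≤ n * Real.sqrt (t - s)}) = 0 := by
  have hsc : 0 < Real.sqrt c := Real.sqrt_pos.2 hc
  have hfin : IsFiniteMeasure ((volume.restrict (Ioc 0 T)).withDensity
    (fun x => ENNReal.ofReal (f x))) := isFiniteMeasure_withDensity_ofReal hfi.2
  have hS := mass_Sg hc hgd
  have hlow := fun (t s : ℝ) (ht : t ∈ Sg T D) (hs : 0 ≤ s) (hst : s < t) =>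
    mass_low hc hf0 hgd ht hs hst
  generalize hν : ((volume.restrict (Ioc 0 T)).withDensity
    (fun x => ENNReal.ofReal (f x))) = ν at hfin hS hlow
  set E : Set ℝ := {t | t ∈ Sg T D ∧ ∃ᶠ s in 𝓝[<] t, D t - D s ≤ n * Real.sqrt (t - s)} with hE
  have key : ∀ ε : ℝ≥0∞, ε ≠ 0 →
      volume (D '' E) ≤ ENNReal.ofReal (5 * (n / Real.sqrt c)) * ε := by
    intro ε hε
    obtain ⟨O, hO1, hO2, hO3⟩ := (Sg T D).exists_isOpen_lt_of_lt (μ := ν) ε
      (by rw [hS]; exact pos_iff_ne_zero.2 hε)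
    have hch : ∀ t ∈ E, ∃ s, 0 ≤ s ∧ s < t ∧ Ioc s t ⊆ O ∧ D t - D s ≤ n * Real.sqrt (t - s) := by
      rintro t ⟨ht, hfr⟩
      have h1 : ∀ᶠ s in 𝓝[<] t, 0 ≤ s ∧ s < t ∧ Ioc s t ⊆ O := by
        obtain ⟨δ, hδ, hball⟩ := Metric.isOpen_iff.1 hO2 t (hO1 ht)
        have h2 : Ioo (max (t - δ) 0) t ∈ 𝓝[<] t :=
          Ioo_mem_nhdsLT (max_lt (by linarith) ht.1.1)
        filter_upwards [h2] with s hs
        refine ⟨(le_max_right _ _).trans hs.1.le, hs.2, fun x hx => hball ?_⟩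
        rw [Metric.mem_ball, Real.dist_eq, abs_lt]
        have h3 := le_max_left (t - δ) 0
        constructor
        · linarith [hs.1, hx.1]
        · linarith [hx.2]
      obtain ⟨s, hs1, hs2⟩ := (hfr.and_eventually h1).exists
      exact ⟨s, hs2.1, hs2.2.1, hs2.2.2, hs1⟩
    choose! σ hσ0 hσ1 hσO hσ using hch
    have hET : ∀ t ∈ E, t ∈ Icc 0 T := fun t ht => Ioo_subset_Icc_self ht.1.1
    have hσI : ∀ t ∈ E, σ t ∈ Icc 0 T := fun t ht =>
      ⟨hσ0 t ht, (hσ1 t ht).le.trans (hET t ht).2⟩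
    have hJ : ∀ t, Metric.closedBall ((D (σ t) + D t) / 2) ((D t - D (σ t)) / 2)
        = Icc (D (σ t)) (D t) := by
      intro t
      rw [Real.closedBall_eq_Icc]
      congr 1 <;> ring
    obtain ⟨u, hu1, hu2, hu3⟩ := Vitali.exists_disjoint_subfamily_covering_enlargement_closedBall
      E (fun t => (D (σ t) + D t) / 2) (fun t => (D t - D (σ t)) / 2) (D T - D 0)
      (by
        intro t ht
        have h0T : (0 : ℝ) ≤ T := (hET t ht).1.trans (hET t ht).2
        have e1 := hD ⟨le_rfl, h0T⟩ (hσI t ht) (hσI t ht).1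
        have e2 := hD (hET t ht) ⟨h0T, le_rfl⟩ (hET t ht).2
        have e3 := hD (hσI t ht) (hET t ht) (hσ1 t ht).le
        linarith) 5 (by norm_num)
    -- disjointness in time
    have hdis : u.PairwiseDisjoint fun t => Ioc (σ t) t := by
      intro a ha b hb hab
      have h1 := hu2 ha hb hab
      simp only [Function.onFun] at h1 ⊢
      rw [hJ, hJ] at h1
      rw [Set.disjoint_left] at h1 ⊢
      intro x hx hx'
      have haE := hu1 ha
      have hbE := hu1 hb
      have hxT : x ∈ Icc 0 T := ⟨(hσ0 a haE).trans hx.1.le, hx.2.trans (hET a haE).2⟩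
      exact h1 (a := D x) ⟨hD (hσI a haE) hxT hx.1.le, hD hxT (hET a haE) hx.2⟩
        ⟨hD (hσI b hbE) hxT hx'.1.le, hD hxT (hET b hbE) hx'.2⟩
    have hcount : u.Countable := by
      refine Set.PairwiseDisjoint.countable_of_isOpen (s := fun t => Ioo (σ t) t) ?_
        (fun t _ => isOpen_Ioo) (fun t ht => nonempty_Ioo.2 (hσ1 t (hu1 ht)))
      exact hdis.mono fun t => Ioo_subset_Ioc_self
    -- the covering
    have hcov : D '' E ⊆ ⋃ b ∈ u, Metric.closedBall ((D (σ b) + D b) / 2)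
        (5 * ((D b - D (σ b)) / 2)) := by
      rintro _ ⟨t, ht, rfl⟩
      obtain ⟨b, hb, hsub⟩ := hu3 t ht
      refine mem_iUnion₂.2 ⟨b, hb, hsub ?_⟩
      rw [hJ]
      exact ⟨hD (hσI t ht) (hET t ht) (hσ1 t ht).le, le_rfl⟩
    have hb1 : ∀ b ∈ u, volume (Metric.closedBall ((D (σ b) + D b) / 2)
        (5 * ((D b - D (σ b)) / 2))) ≤ ENNReal.ofReal (5 * (n / Real.sqrt c)) * ν (Ioc (σ b) b) := by
      intro b hb
      have hbE := hu1 hb
      rw [Real.volume_closedBall]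
      have h1 := hσ b hbE
      have h2 := hlow b (σ b) hbE.1 (hσ0 b hbE) (hσ1 b hbE)
      calc ENNReal.ofReal (2 * (5 * ((D b - D (σ b)) / 2)))
          ≤ ENNReal.ofReal (5 * (n / Real.sqrt c) * (Real.sqrt c * Real.sqrt (b - σ b))) := by
            refine ENNReal.ofReal_le_ofReal ?_
            have e1 : 5 * (n / Real.sqrt c) * (Real.sqrt c * Real.sqrt (b - σ b))
                = 5 * (n * Real.sqrt (b - σ b)) := by
              field_simp
            rw [e1]
            linarith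
        _ = ENNReal.ofReal (5 * (n / Real.sqrt c)) *
              ENNReal.ofReal (Real.sqrt c * Real.sqrt (b - σ b)) :=
            ENNReal.ofReal_mul (by positivity)
        _ ≤ _ := mul_le_mul_right h2 _
    calc volume (D '' E) ≤ volume (⋃ b ∈ u, Metric.closedBall ((D (σ b) + D b) / 2)
        (5 * ((D b - D (σ b)) / 2))) := measure_mono hcov
      _ ≤ ∑' b : u, volume (Metric.closedBall ((D (σ b) + D b) / 2)
        (5 * ((D b - D (σ b)) / 2))) := measure_biUnion_le _ hcount _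
      _ ≤ ∑' b : u, ENNReal.ofReal (5 * (n / Real.sqrt c)) * ν (Ioc (σ b) b) :=
          ENNReal.tsum_le_tsum fun b => hb1 b b.2
      _ = ENNReal.ofReal (5 * (n / Real.sqrt c)) * ∑' b : u, ν (Ioc (σ b) b) :=
          ENNReal.tsum_mul_left
      _ = ENNReal.ofReal (5 * (n / Real.sqrt c)) * ν (⋃ b ∈ u, Ioc (σ b) b) := by
          rw [measure_biUnion hcount hdis fun b _ => measurableSet_Ioc]
      _ ≤ ENNReal.ofReal (5 * (n / Real.sqrt c)) * ν O := by
          refine mul_le_mul_right (measure_mono ?_) _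
          exact iUnion₂_subset fun b hb => hσO b (hu1 hb)
      _ ≤ ENNReal.ofReal (5 * (n / Real.sqrt c)) * ε := mul_le_mul_right hO3.le _
  refine le_antisymm ?_ (zero_le)
  refine ENNReal.le_of_forall_pos_le_add ?_
  intro ε hε _
  have hA : ENNReal.ofReal (5 * (n / Real.sqrt c)) ≤ ENNReal.ofReal (5 * (n / Real.sqrt c) + 1) :=
    ENNReal.ofReal_le_ofReal (by linarith)
  have hA0 : ENNReal.ofReal (5 * (n / Real.sqrt c) + 1) ≠ 0 := by
    have : 0 < 5 * (n / Real.sqrt c) + 1 := by positivity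
    simpa using this
  have := key (ε / ENNReal.ofReal (5 * (n / Real.sqrt c) + 1)) (by
    rw [ne_eq, ENNReal.div_eq_zero_iff]
    push Not
    exact ⟨by exact_mod_cast hε.ne', ENNReal.ofReal_ne_top⟩)
  rw [zero_add]
  refine this.trans ?_
  calc ENNReal.ofReal (5 * (n / Real.sqrt c)) * (ε / ENNReal.ofReal (5 * (n / Real.sqrt c) + 1))
      ≤ ENNReal.ofReal (5 * (n / Real.sqrt c) + 1) *
        (ε / ENNReal.ofReal (5 * (n / Real.sqrt c) + 1)) := mul_le_mul_left hA _
    _ = ε := ENNReal.mul_div_cancel hA0 ENNReal.ofReal_ne_top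

end Pool.Agent.TH340.EE
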