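import Pool.Agent.TH340.EE.Meas

/-!
The part of the times at which `w_k (D t - D (t - 2^{-k})) = O(2^{-k/2})`, `∑ w_k = ∞`.
-/

set_option autoImplicit false

open MeasureTheory Set Filter Topology
open scoped ENNReal

namespace Pool.Agent.TH340.EE

open Pool.Agent.W585.HE (Sg not_Sg Gd low Sg_null)

/-- a truncated geometric sum -/
theorem geo_bound {X : ℝ} (hX : 0 ≤ X) (m : ℕ) :
    ∑ k ∈ Finset.range m, (if Real.sqrt 2 ^ k ≤ X then Real.sqrt 2 ^ k else 0) ≤ 4 * X := by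
  have hr : (4 : ℝ) / 3 ≤ Real.sqrt 2 := by
    rw [show (4 : ℝ) / 3 = Real.sqrt ((4 / 3) ^ 2) from (Real.sqrt_sq (by norm_num)).symm]
    exact Real.sqrt_le_sqrt (by norm_num)
  set r := Real.sqrt 2 with hrdef
  have hr0 : 0 < r - 1 := by linarith
  have h1 : ∀ m : ℕ, ∑ k ∈ Finset.range m, (if r ^ k ≤ X then r ^ k else 0)
      ≤ (r ^ m - 1) / (r - 1) := by
    intro m
    induction m with
    | zero => simp
    | succ m ih =>
      rw [Finset.sum_range_succ]
      have e1 : (r ^ (m + 1) - 1) / (r - 1) = (r ^ m - 1) / (r - 1) + r ^ m := by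
        field_simp
        ring
      rw [e1]
      have : (if r ^ m ≤ X then r ^ m else 0) ≤ r ^ m := by
        split_ifs
        · exact le_rfl
        · positivity
      linarith
  induction m with
  | zero => simpa using hX
  | succ m ih =>
    by_cases hm : r ^ m ≤ X
    · refine (h1 (m + 1)).trans ?_
      rw [div_le_iff₀ hr0, pow_succ]
      have h2 : r ^ m * r ≤ X * r := by gcongr
      nlinarith
    · rw [Finset.sum_range_succ, if_neg hm, add_zero]
      exact ih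

/-- `∑ √2^k |{c ≤ 2^{1-k} f²}| < ∞` -/
theorem sum_mass {T c : ℝ} (hc : 0 < c) {f : ℝ → ℝ} (hfm : Measurable f) (hf0 : ∀ s, 0 ≤ f s)
    (hfi : IntegrableOn f (Ioc 0 T)) :
    ∑' k : ℕ, ENNReal.ofReal (Real.sqrt 2 ^ k) *
      (volume.restrict (Ioc 0 T)) {s | c ≤ 2 * (1 / 2) ^ k * f s ^ 2} ≠ ⊤ := by
  have hmeas : ∀ k : ℕ, MeasurableSet {s | c ≤ 2 * (1 / 2) ^ k * f s ^ 2} := fun k =>
    measurableSet_le measurable_const ((hfm.pow_const 2).const_mul _)
  have e1 : ∀ k : ℕ, ENNReal.ofReal (Real.sqrt 2 ^ k) *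
      (volume.restrict (Ioc 0 T)) {s | c ≤ 2 * (1 / 2) ^ k * f s ^ 2}
      = ∫⁻ s in Ioc 0 T, ({s | c ≤ 2 * (1 / 2) ^ k * f s ^ 2}).indicator
        (fun _ => ENNReal.ofReal (Real.sqrt 2 ^ k)) s := by
    intro k
    rw [lintegral_indicator (hmeas k), setLIntegral_const]
  simp_rw [e1]
  rw [← lintegral_tsum fun k => ((measurable_const.indicator (hmeas k)).aemeasurable)]
  have hpt : ∀ s, ∑' k : ℕ, ({s | c ≤ 2 * (1 / 2) ^ k * f s ^ 2}).indicator
        (fun _ => ENNReal.ofReal (Real.sqrt 2 ^ k)) s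
        ≤ ENNReal.ofReal (4 * (Real.sqrt (2 / c) * f s)) := by
    intro s
    have hX : 0 ≤ Real.sqrt (2 / c) * f s := mul_nonneg (Real.sqrt_nonneg _) (hf0 s)
    refine ENNReal.tsum_le_of_sum_range_le fun m => ?_
    have e2 : ∀ k ∈ Finset.range m, ({s | c ≤ 2 * (1 / 2) ^ k * f s ^ 2}).indicator
        (fun _ => ENNReal.ofReal (Real.sqrt 2 ^ k)) s ≤
        ENNReal.ofReal (if Real.sqrt 2 ^ k ≤ Real.sqrt (2 / c) * f s then Real.sqrt 2 ^ k else 0)
        := by
      intro k _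
      by_cases hk : c ≤ 2 * (1 / 2) ^ k * f s ^ 2
      · rw [indicator_of_mem (show s ∈ {s | c ≤ 2 * (1 / 2) ^ k * f s ^ 2} from hk)]
        have h1 : Real.sqrt 2 ^ k ≤ Real.sqrt (2 / c) * f s := by
          have h2 : (Real.sqrt 2 ^ k) ^ 2 ≤ (Real.sqrt (2 / c) * f s) ^ 2 := by
            rw [mul_pow, Real.sq_sqrt (by positivity), ← pow_mul, mul_comm k 2, pow_mul,
              Real.sq_sqrt (by norm_num)]
            rw [div_mul_eq_mul_div, le_div_iff₀ hc]
            have h3 : (2 : ℝ) ^ k * c ≤ 2 ^ k * (2 * (1 / 2) ^ k * f s ^ 2) := by gcongr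
            have h4 : (2 : ℝ) ^ k * (1 / 2) ^ k = 1 := by
              rw [← mul_pow]
              norm_num
            calc (2 : ℝ) ^ k * c ≤ 2 ^ k * (2 * (1 / 2) ^ k * f s ^ 2) := h3
              _ = 2 * f s ^ 2 * (2 ^ k * (1 / 2) ^ k) := by ring
              _ = 2 * f s ^ 2 := by rw [h4, mul_one]
          exact (pow_le_pow_iff_left₀ (by positivity) hX (by norm_num)).mp h2
        rw [if_pos h1]
      · rw [indicator_of_notMem (show s ∉ {s | c ≤ 2 * (1 / 2) ^ k * f s ^ 2} from hk)]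
        exact zero_le
    refine (Finset.sum_le_sum e2).trans ?_
    rw [← ENNReal.ofReal_sum_of_nonneg]
    · exact ENNReal.ofReal_le_ofReal (geo_bound hX m)
    · intro k _
      split_ifs
      · positivity
      · exact le_rfl
  refine ne_top_of_le_ne_top ?_ (lintegral_mono hpt)
  have : IntegrableOn (fun s => 4 * (Real.sqrt (2 / c) * f s)) (Ioc 0 T) :=
    (hfi.const_mul _).const_mul _
  rw [← ofReal_integral_eq_lintegral_ofReal this (Eventually.of_forall fun s => by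
    have := hf0 s
    positivity)]
  exact ENNReal.ofReal_ne_top

/-- the times at which the dyadic increments are small -/
theorem null_A {T c : ℝ} (hc : 0 < c) {D f : ℝ → ℝ} (hD : MonotoneOn D (Icc 0 T))
    (hfm : Measurable f) (hf0 : ∀ s, 0 ≤ f s) (hfi : IntegrableOn f (Ioc 0 T))
    (hgd : ∀ᵐ s ∂(volume.restrict (Ioc 0 T)), Gd T c D f s) {w : ℕ → ℝ} (hw0 : ∀ k, 0 ≤ w k)
    (hw : ¬ Summable w) (n : ℕ) :
    volume (D '' {t | t ∈ Sg T D ∧ (1 / 2 : ℝ) ^ n ≤ t ∧ ∀ k ≥ n,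
      w k * (D t - D (t - (1 / 2) ^ k)) ≤ n * Real.sqrt ((1 / 2) ^ k)}) = 0 := by
  set A : Set ℝ := {t | t ∈ Sg T D ∧ (1 / 2 : ℝ) ^ n ≤ t ∧ ∀ k ≥ n,
      w k * (D t - D (t - (1 / 2) ^ k)) ≤ n * Real.sqrt ((1 / 2) ^ k)} with hA
  have hstep : ∀ k : ℕ, n + 1 ≤ k → ENNReal.ofReal (w k) * volume (D '' A) ≤
      ENNReal.ofReal n * (ENNReal.ofReal (Real.sqrt 2 ^ k) *
      (volume.restrict (Ioc 0 T)) {s | c ≤ 2 * (1 / 2) ^ k * f s ^ 2}) := by
    intro k hk
    rcases (hw0 k).eq_or_lt with h0 | hwk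
    · rw [← h0]
      simp
    set l : ℝ := (1 / 2) ^ k with hl
    have hl0 : 0 < l := by positivity
    have hln : 2 * l ≤ (1 / 2 : ℝ) ^ n := by
      have h1 : l ≤ (1 / 2 : ℝ) ^ (n + 1) :=
        pow_le_pow_of_le_one (by norm_num) (by norm_num) hk
      rw [pow_succ] at h1
      linarith
    have hsl : 0 < Real.sqrt l := Real.sqrt_pos.2 hl0
    set I : Set ℕ := {i | 1 ≤ i ∧ ∃ t ∈ A, t ∈ Ioc ((i : ℝ) * l) (((i : ℝ) + 1) * l)} with hI
    -- covering of the image
    have hcov : D '' A ⊆ ⋃ i ∈ I, Icc (D ((i : ℝ) * l)) (D ((i : ℝ) * l) + n * Real.sqrt l / w k)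
        := by
      rintro _ ⟨t, ht, rfl⟩
      have ht2 : 2 * l ≤ t := hln.trans ht.2.1
      have htT := ht.1.1
      have hc1 : 0 < ⌈t / l⌉₊ := Nat.ceil_pos.2 (div_pos htT.1 hl0)
      obtain ⟨i, hi⟩ : ∃ i : ℕ, i + 1 = ⌈t / l⌉₊ := ⟨⌈t / l⌉₊ - 1, by omega⟩
      have hi1 : ((i : ℝ) + 1) = (⌈t / l⌉₊ : ℝ) := by exact_mod_cast hi
      have h3 : t ≤ ((i : ℝ) + 1) * l := by
        rw [hi1]
        have := Nat.le_ceil (t / l)
        rwa [div_le_iff₀ hl0] at this
      have h4 : (i : ℝ) * l < t := by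
        have h5 : (⌈t / l⌉₊ : ℝ) < t / l + 1 :=
          Nat.ceil_lt_add_one (div_nonneg htT.1.le hl0.le)
        have h6 : (i : ℝ) < t / l := by linarith
        rwa [lt_div_iff₀ hl0] at h6
      have h5 : 1 ≤ i := by
        by_contra hcon
        have : i = 0 := by omega
        subst this
        norm_num at h3
        linarith
      refine mem_iUnion₂.2 ⟨i, ⟨h5, t, ht, h4, h3⟩, ?_, ?_⟩
      · exact hD ⟨by positivity, h4.le.trans htT.2.le⟩ (Ioo_subset_Icc_self htT) h4.le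
      · have h6 := ht.2.2 k (by omega)
        have h7 : D (t - l) ≤ D ((i : ℝ) * l) :=
          hD ⟨by linarith, by linarith [htT.2]⟩ ⟨by positivity, h4.le.trans htT.2.le⟩
            (by linarith)
        have h8 : w k * (D t - D ((i : ℝ) * l)) ≤ n * Real.sqrt l := by
          refine le_trans ?_ h6
          exact mul_le_mul_of_nonneg_left (by linarith) hwk.le
        have h9 : D t - D ((i : ℝ) * l) ≤ n * Real.sqrt l / w k := by
          rw [le_div_iff₀ hwk]
          linarith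
        linarith
    -- the preceding cells
    have hIT : ∀ i ∈ I, ∃ t ∈ A, t ∈ Ioc ((i : ℝ) * l) (((i : ℝ) + 1) * l) := fun i hi => hi.2
    have hsub : (⋃ i ∈ I, Ioc (((i : ℝ) - 1) * l) ((i : ℝ) * l)) ⊆ Ioc 0 T := by
      refine iUnion₂_subset fun i hi => ?_
      obtain ⟨h1, t, ht, ht1, ht2⟩ := hi
      have h1' : (1 : ℝ) ≤ i := by exact_mod_cast h1
      intro s hs
      refine ⟨lt_of_le_of_lt ?_ hs.1, ?_⟩
      · exact mul_nonneg (by linarith) hl0.le
      · linarith [hs.2, ht.1.1.2]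
    have hmU : MeasurableSet (⋃ i ∈ I, Ioc (((i : ℝ) - 1) * l) ((i : ℝ) * l)) :=
      MeasurableSet.biUnion I.to_countable fun i _ => measurableSet_Ioc
    have hdis : I.PairwiseDisjoint fun i : ℕ => Ioc (((i : ℝ) - 1) * l) ((i : ℝ) * l) := by
      intro i _ j _ hij
      simp only [Function.onFun]
      rw [Set.disjoint_left]
      intro x hx hx'
      rcases lt_or_gt_of_ne hij with h | h
      · have h' : (i : ℝ) + 1 ≤ j := by exact_mod_cast h
        have : (i : ℝ) * l ≤ ((j : ℝ) - 1) * l := by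
          refine mul_le_mul_of_nonneg_right ?_ hl0.le
          linarith
        linarith [hx.2, hx'.1]
      · have h' : (j : ℝ) + 1 ≤ i := by exact_mod_cast h
        have : (j : ℝ) * l ≤ ((i : ℝ) - 1) * l := by
          refine mul_le_mul_of_nonneg_right ?_ hl0.le
          linarith
        linarith [hx.1, hx'.2]
    have hUB : volume (⋃ i ∈ I, Ioc (((i : ℝ) - 1) * l) ((i : ℝ) * l)) ≤
        (volume.restrict (Ioc 0 T)) {s | c ≤ 2 * (1 / 2) ^ k * f s ^ 2} := by
      have e1 : volume (⋃ i ∈ I, Ioc (((i : ℝ) - 1) * l) ((i : ℝ) * l)) =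
          (volume.restrict (Ioc 0 T)) (⋃ i ∈ I, Ioc (((i : ℝ) - 1) * l) ((i : ℝ) * l)) := by
        rw [Measure.restrict_apply hmU, inter_eq_left.2 hsub]
      rw [e1]
      refine measure_mono_ae ?_
      filter_upwards [hgd] with s hs
      intro hsU
      obtain ⟨i, hi, hsi⟩ := mem_iUnion₂.1 hsU
      obtain ⟨h1, t, ht, ht1, ht2⟩ := hi
      have h2 := low hs ht.1 (lt_of_le_of_lt hsi.2 ht1)
      show c ≤ 2 * (1 / 2) ^ k * f s ^ 2
      refine h2.trans ?_
      refine mul_le_mul_of_nonneg_right ?_ (sq_nonneg _)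
      rw [← hl]
      have := hsi.1
      linarith
    -- conclusion
    have hl2 : Real.sqrt l = (Real.sqrt 2 ^ k)⁻¹ := by
      rw [hl, one_div, inv_pow, Real.sqrt_inv]
      congr 1
      rw [Real.sqrt_eq_iff_mul_self_eq (by positivity) (by positivity), ← mul_pow,
        Real.mul_self_sqrt (by norm_num)]
    have hl3 : l = (Real.sqrt 2 ^ k)⁻¹ * (Real.sqrt 2 ^ k)⁻¹ := by
      rw [← hl2, Real.mul_self_sqrt hl0.le]
    have hr0 : 0 < Real.sqrt 2 ^ k := by positivity
    calc ENNReal.ofReal (w k) * volume (D '' A)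
        ≤ ENNReal.ofReal (w k) * ∑' i : I, volume (Icc (D ((i : ℕ) * l))
            (D ((i : ℕ) * l) + n * Real.sqrt l / w k)) := by
          refine mul_le_mul_right ((measure_mono hcov).trans ?_) _
          exact measure_biUnion_le _ I.to_countable _
      _ = ∑' i : I, ENNReal.ofReal (w k) * volume (Icc (D ((i : ℕ) * l))
            (D ((i : ℕ) * l) + n * Real.sqrt l / w k)) := ENNReal.tsum_mul_left.symm
      _ = ∑' i : I, ENNReal.ofReal n * (ENNReal.ofReal (Real.sqrt 2 ^ k) *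
            volume (Ioc (((i : ℕ) - 1 : ℝ) * l) ((i : ℕ) * l))) := by
          refine tsum_congr fun i => ?_
          rw [Real.volume_Icc, Real.volume_Ioc, add_sub_cancel_left,
            ← ENNReal.ofReal_mul (hw0 k), ← ENNReal.ofReal_mul hr0.le,
            ← ENNReal.ofReal_mul (by positivity)]
          congr 1
          have e2 : ((i : ℕ) : ℝ) * l - (((i : ℕ) : ℝ) - 1) * l = l := by ring
          rw [e2, hl2, hl3]
          field_simp
      _ = ENNReal.ofReal n * (ENNReal.ofReal (Real.sqrt 2 ^ k) *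
            ∑' i : I, volume (Ioc (((i : ℕ) - 1 : ℝ) * l) ((i : ℕ) * l))) := by
          rw [ENNReal.tsum_mul_left, ENNReal.tsum_mul_left]
      _ = ENNReal.ofReal n * (ENNReal.ofReal (Real.sqrt 2 ^ k) *
            volume (⋃ i ∈ I, Ioc (((i : ℝ) - 1) * l) ((i : ℝ) * l))) := by
          rw [measure_biUnion I.to_countable hdis fun i _ => measurableSet_Ioc]
      _ ≤ _ := by gcongr
  -- summation
  by_contra hV
  have h1 : ∑' k : ℕ, ENNReal.ofReal (w (k + (n + 1))) * volume (D '' A) ≤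
      ∑' k : ℕ, ENNReal.ofReal n * (ENNReal.ofReal (Real.sqrt 2 ^ k) *
      (volume.restrict (Ioc 0 T)) {s | c ≤ 2 * (1 / 2) ^ k * f s ^ 2}) := by
    calc ∑' k : ℕ, ENNReal.ofReal (w (k + (n + 1))) * volume (D '' A)
        ≤ ∑' k : ℕ, ENNReal.ofReal n * (ENNReal.ofReal (Real.sqrt 2 ^ (k + (n + 1))) *
      (volume.restrict (Ioc 0 T)) {s | c ≤ 2 * (1 / 2) ^ (k + (n + 1)) * f s ^ 2}) :=
          ENNReal.tsum_le_tsum fun k => hstep (k + (n + 1)) (by omega)
      _ ≤ _ := ENNReal.tsum_comp_le_tsum_of_injective (add_left_injective (n + 1))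
          (fun k => ENNReal.ofReal n * (ENNReal.ofReal (Real.sqrt 2 ^ k) *
          (volume.restrict (Ioc 0 T)) {s | c ≤ 2 * (1 / 2) ^ k * f s ^ 2}))
  rw [ENNReal.tsum_mul_right, ENNReal.tsum_mul_left] at h1
  have h2 : ∑' k : ℕ, ENNReal.ofReal (w (k + (n + 1))) = ⊤ := by
    by_contra hne
    have h3 := ENNReal.summable_toReal hne
    have h4 : Summable fun k => w (k + (n + 1)) :=
      h3.congr fun k => (ENNReal.toReal_ofReal (hw0 _))
    exact hw ((summable_nat_add_iff (n + 1)).1 h4)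
  rw [h2, ENNReal.top_mul hV] at h1
  exact (ENNReal.mul_ne_top ENNReal.ofReal_ne_top (sum_mass hc hfm hf0 hfi)) (top_le_iff.1 h1)

end Pool.Agent.TH340.EE
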