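import Pool.Agent.TH340.EE.Left
import Pool.Agent.TH340.EE.MeasA

/-!
The energy defect maps the set of the times at which the dissipation is of type I along some
sequence of scales onto a null set; no continuity is assumed.
-/

set_option autoImplicit false

open MeasureTheory Set Filter Topology
open scoped InnerProductSpace

namespace Pool.Agent.TH340.EE

open Pool.Agent.W795.HE
open H772R2.NSR (Frame prim_cont)
open H772R2.NSG (LH dft Coef ii_of_int)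
open Pool.Agent.W795.TQ (FH Univ S_univ)
open Pool.Agent.W933.HE (coef dft_sub)
open Pool.Agent.W585.HE (Sg not_Sg Gd low Sg_null)

/-- the monotone regularisation -/
theorem monotone_reg {T : ℝ} {D : ℝ → ℝ} (hD0 : ∀ t ∈ Icc 0 T, 0 ≤ D t) {B : ℝ}
    (hB : ∀ t ∈ Icc 0 T, D t ≤ B)
    (hG : ∀ᵐ s ∂(volume.restrict (Ioc 0 T)), ∀ t ∈ Icc s T, D s ≤ D t) :
    ∃ Dr : ℝ → ℝ, Monotone Dr ∧ (∀ᵐ s ∂(volume.restrict (Ioc 0 T)), Dr s = D s) ∧
      (∀ t ∈ Ioc 0 T, (∀ ε > 0, ∃ s ∈ Ioo 0 t, (∀ r ∈ Icc s T, D s ≤ D r) ∧ D t ≤ D s + ε) →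
        Dr t = D t) ∧
      ∀ s ∈ Ioc 0 T, (∀ t ∈ Icc s T, D s ≤ D t) → Dr s = D s → ∀ t ∈ Icc s T,
        (∀ r ∈ Icc s t, D r = D s) → Dr t = Dr s := by
  obtain ⟨G, hGd⟩ : ∃ G : Set ℝ, G = {s | s ∈ Ioc 0 T ∧ ∀ t ∈ Icc s T, D s ≤ D t} := ⟨_, rfl⟩
  obtain ⟨Dr, hDr⟩ : ∃ Dr : ℝ → ℝ, Dr = fun t => sSup (D '' (G ∩ Iio t)) := ⟨_, rfl⟩
  have hGI : ∀ s ∈ G, s ∈ Ioc 0 T := fun s hs => by rw [hGd] at hs; exact hs.1
  have hGm : ∀ s ∈ G, ∀ t ∈ Icc s T, D s ≤ D t := fun s hs => by rw [hGd] at hs; exact hs.2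
  have hbdd : ∀ t, BddAbove (D '' (G ∩ Iio t)) := by
    intro t
    refine ⟨B, ?_⟩
    rintro _ ⟨s, hs, rfl⟩
    exact hB s (Ioc_subset_Icc_self (hGI s hs.1))
  have hnn : ∀ t, 0 ≤ Dr t := by
    intro t
    rw [hDr]
    refine Real.sSup_nonneg ?_
    rintro _ ⟨s, hs, rfl⟩
    exact hD0 s (Ioc_subset_Icc_self (hGI s hs.1))
  have hge : ∀ s ∈ G, ∀ t, s < t → D s ≤ Dr t := by
    intro s hs t hst
    rw [hDr]
    exact le_csSup (hbdd t) ⟨s, ⟨hs, hst⟩, rfl⟩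
  have hmono : Monotone Dr := by
    intro a b hab
    rcases (D '' (G ∩ Iio a)).eq_empty_or_nonempty with he | hne
    · have : Dr a = 0 := by
        rw [hDr]
        simp only
        rw [he, Real.sSup_empty]
      rw [this]
      exact hnn b
    · rw [hDr]
      exact csSup_le_csSup (hbdd b) hne
        (image_mono (inter_subset_inter_right _ (Iio_subset_Iio hab)))
  have hle : ∀ t ∈ Ioc 0 T, ∀ b, (∀ s ∈ G, s < t → D s ≤ b) → 0 ≤ b → Dr t ≤ b := by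
    intro t _ b hb hb0
    rw [hDr]
    refine Real.sSup_le ?_ hb0
    rintro _ ⟨s, hs, rfl⟩
    exact hb s hs.1 hs.2
  have hle' : ∀ t ∈ Ioc 0 T, Dr t ≤ D t := by
    intro t ht
    refine hle t ht _ (fun s hs hst => hGm s hs t ⟨hst.le, ht.2⟩) (hD0 t (Ioc_subset_Icc_self ht))
  refine ⟨Dr, hmono, ?_, ?_, ?_⟩
  · have hc := hmono.countable_not_continuousAt
    have h1 : ∀ᵐ s ∂(volume.restrict (Ioc 0 T)), ContinuousAt Dr s := by
      refine ae_restrict_of_ae ?_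
      rw [ae_iff]
      exact hc.measure_zero _
    have h2 : ∀ᵐ s ∂(volume.restrict (Ioc 0 T)), s ≠ T := by
      refine ae_restrict_of_ae ?_
      rw [ae_iff]
      simp
    filter_upwards [hG, h1, h2, ae_restrict_mem measurableSet_Ioc] with s hs hs1 hs2 hs3
    refine le_antisymm (hle' s hs3) ?_
    have hsG : s ∈ G := by
      rw [hGd]
      exact ⟨hs3, hs⟩
    have h3 : Tendsto Dr (𝓝[>] s) (𝓝 (Dr s)) := hs1.mono_left nhdsWithin_le_nhds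
    refine ge_of_tendsto h3 ?_
    filter_upwards [self_mem_nhdsWithin] with t ht
    exact hge s hsG t ht
  · intro t ht h
    refine le_antisymm (hle' t ht) ?_
    refine le_of_forall_pos_le_add fun ε hε => ?_
    obtain ⟨s, hs, hs1, hs2⟩ := h ε hε
    have hsG : s ∈ G := by
      rw [hGd]
      exact ⟨⟨hs.1, hs.2.le.trans ht.2⟩, hs1⟩
    have := hge s hsG t hs.2
    linarith
  · intro s hs hsm hsD t ht hr
    refine le_antisymm ?_ (hmono ht.1)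
    rw [hsD]
    refine hle t ⟨hs.1.trans_le ht.1, ht.2⟩ _ (fun s' hs' hst' => ?_)
      (hD0 s (Ioc_subset_Icc_self hs))
    rcases le_total s' s with h1 | h1
    · exact hGm s' hs' s ⟨h1, hs.2⟩
    · exact (hr s' ⟨h1, hst'.le⟩).le

section

variable {H K : Type} [NormedAddCommGroup H] [InnerProductSpace ℝ H] [CompleteSpace H]
  [NormedAddCommGroup K] [InnerProductSpace ℝ K] [CompleteSpace K]
variable {W : Submodule ℝ (H × K)} {m : H → K} {C c ν T : ℝ} {F F1 : ℝ → K} {x0 : H}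
  {u : ℝ → H} {z : ℝ → K}

theorem null_E (htp : S_tp) (hgrw : S_grw) (hreg : S_reg) (hsh : S_shift)
    (Fr : Frame W m C) (Un : Univ W m c) (hc : 0 < c)
    (hcomp : ∀ R : ℝ, TotallyBounded {v : H | ∃ z, (v, z) ∈ W ∧ ‖z‖ ≤ R})
    (hν : 0 < ν) (hT : 0 < T) (hF : FH T F F1)
    (L : LH W m T (fun _ => ν) F x0 u z) (hSE : SE ν T F u z) :
    volume (dft (fun _ => ν) F x0 u z '' {τ | τ ∈ Ioc 0 T ∧ ∃ M : ℝ, ∃ᶠ t in 𝓝[<] τ,
      ∫ s in t..τ, ‖z s‖ ^ 2 ≤ M * Real.sqrt (τ - t)}) = 0 := by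
  have hFc : ContinuousOn F (Icc 0 T) := prim_cont hF.memLp hF.prim
  have Co : Coef ν T (fun _ => ν) F := coef hFc
  obtain ⟨ε1, hε1, hcc⟩ := const_ae hreg hsh c hc
  obtain ⟨Kc, hK0, hae⟩ := hcc H K W m C ν T F F1 x0 u z Fr Un hcomp hν hT hF L hSE
  have hν32 : 0 < ν ^ (3 / 2 : ℝ) := Real.rpow_pos_of_pos hν _
  obtain ⟨B, hB0, hB⟩ := dft_bdd Co hν L
  have hm := dft_mono_ae Co L hSE
  have hD0 : ∀ t ∈ Icc 0 T, 0 ≤ dft (fun _ => ν) F x0 u z t := fun t ht => dft_nonneg Co L ht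
  have hseq := fun (τ : ℝ) (hτ : τ ∈ Ioc 0 T) (M : ℝ)
    (hM : ∃ᶠ t in 𝓝[<] τ, ∫ s in t..τ, ‖z s‖ ^ 2 ≤ M * Real.sqrt (τ - t)) =>
      seq_bound htp hgrw Fr Un hc hν hT hF L hSE hτ hM
  generalize dft (fun _ => ν) F x0 u z = D at *
  obtain ⟨Dr, hmono, hDr1, hDr2, hDr3⟩ := monotone_reg hD0 hB hm
  -- a measurable density
  have hyi : IntegrableOn (fun s => ‖z s‖ ^ 2) (Ioc 0 T) := zsq_int L
  have hyK : IntegrableOn (fun s => ‖z s‖ ^ 2 + Kc) (Ioc 0 T) := by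
    have : IntegrableOn (fun _ : ℝ => Kc) (Ioc 0 T) := integrable_const Kc
    exact hyi.add this
  have hf0 : ∀ s, 0 ≤ ‖z s‖ ^ 2 + Kc := fun s => by positivity
  have hcpos : 0 < (ε1 * ν ^ (3 / 2 : ℝ)) ^ 2 := by positivity
  have hgd : ∀ᵐ s ∂(volume.restrict (Ioc 0 T)),
      Gd T ((ε1 * ν ^ (3 / 2 : ℝ)) ^ 2) Dr (fun s => ‖z s‖ ^ 2 + Kc) s := by
    filter_upwards [hae, hm, hDr1, ae_restrict_mem measurableSet_Ioc] with s h1 h2 h3 h4 t ht hts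
    refine hDr3 s h4 h2 h3 t ht fun r hr => ?_
    refine h1 r ⟨hr.1, hr.2.trans ht.2⟩ ?_
    refine le_trans ?_ hts
    have : r - s ≤ t - s := by linarith [hr.2]
    gcongr
  -- the covering
  have hcov : D '' {τ | τ ∈ Ioc 0 T ∧ ∃ M : ℝ, ∃ᶠ t in 𝓝[<] τ,
      ∫ s in t..τ, ‖z s‖ ^ 2 ≤ M * Real.sqrt (τ - t)} ⊆ ((Dr '' (Ioo 0 T \ Sg T Dr)) ∪ {D T}) ∪
      ⋃ n : ℕ, Dr '' {t | t ∈ Sg T Dr ∧ ∃ᶠ s in 𝓝[<] t, Dr t - Dr s ≤ n * Real.sqrt (t - s)} := by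
    rintro _ ⟨τ, ⟨hτ, M, hM⟩, rfl⟩
    rcases hτ.2.eq_or_lt with heq | hlt
    · rw [heq]
      exact Or.inl (Or.inr rfl)
    obtain ⟨M', hM'0, hM'⟩ := hseq τ hτ M hM
    have hDτ : Dr τ = D τ := by
      refine hDr2 τ hτ fun ε hε => ?_
      obtain ⟨t1, ht1, ht10, -, hmn, hb⟩ := hM' ((ε / (M' + 1)) ^ 2) (by positivity)
        (fun _ => True) (Eventually.of_forall fun _ => trivial)
      refine ⟨t1, ⟨ht10, ht1.2⟩, hmn, ?_⟩
      have h2 : Real.sqrt (τ - t1) ≤ ε / (M' + 1) := by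
        rw [← Real.sqrt_sq (show 0 ≤ ε / (M' + 1) by positivity)]
        exact Real.sqrt_le_sqrt (by linarith [ht1.1])
      have h3 : M' * Real.sqrt (τ - t1) ≤ ε := by
        calc M' * Real.sqrt (τ - t1) ≤ M' * (ε / (M' + 1)) := by gcongr
          _ ≤ ε := by
            rw [mul_div_assoc', div_le_iff₀ (by positivity)]
            nlinarith
      linarith
    rw [← hDτ]
    by_cases hS : τ ∈ Sg T Dr
    · right
      obtain ⟨n, hn⟩ := exists_nat_ge M'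
      refine mem_iUnion.2 ⟨n, τ, ⟨hS, ?_⟩, rfl⟩
      rw [frequently_iff]
      intro U hU
      obtain ⟨l, hl, hsub⟩ := mem_nhdsLT_iff_exists_Ioo_subset.1 hU
      obtain ⟨t1, ht1, -, hp, -, hb⟩ := hM' (τ - l) (by linarith [mem_Iio.1 hl])
        (fun s => Dr s = D s) hDr1
      rw [sub_sub_cancel] at ht1
      refine ⟨t1, hsub ht1, ?_⟩
      rw [hDτ, hp]
      exact hb.trans (mul_le_mul_of_nonneg_right hn (Real.sqrt_nonneg _))
    · exact Or.inl (Or.inl ⟨τ, ⟨⟨hτ.1, hlt⟩, hS⟩, rfl⟩)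
  refine measure_mono_null hcov ?_
  rw [measure_union_null_iff, measure_union_null_iff]
  refine ⟨⟨count_off.measure_zero _, by simp⟩, ?_⟩
  exact measure_iUnion_null fun n => null_B hcpos (hmono.monotoneOn _) hf0 hyK hgd
    (Nat.cast_nonneg n)

end

end Pool.Agent.TH340.EE
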