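import Pool.Agent.W795.HE.FinD

/-!
One scale of type I controls the energy defect at that scale.
-/

set_option autoImplicit false

open MeasureTheory Set Filter Topology
open scoped InnerProductSpace

namespace Pool.Agent.TH340.EE

open Pool.Agent.W795.HE
open H772R2.NSR (Frame prim_cont)
open H772R2.NSG (LH dft Coef ii_of_int)
open Pool.Agent.W795.TQ (FH Univ)
open Pool.Agent.W933.HE (coef dft_sub)

section

variable {H K : Type} [NormedAddCommGroup H] [InnerProductSpace ℝ H] [CompleteSpace H]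
  [NormedAddCommGroup K] [InnerProductSpace ℝ K] [CompleteSpace K]
variable {W : Submodule ℝ (H × K)} {m : H → K} {C c ν T τ : ℝ} {F F1 : ℝ → K} {x0 : H}
  {u : ℝ → H} {z : ℝ → K}

/-- If `∫_{τ-h}^τ ‖∇u‖² ≤ M √h` for one `h` then `D(τ) - D(t₁) ≤ M' √h` for some good time
`t₁ ∈ (τ - h, τ - h/2)`. -/
theorem scale_bound (htp : S_tp) (hgrw : S_grw) (Fr : Frame W m C) (Un : Univ W m c) (hc : 0 < c)
    (hν : 0 < ν) (hT : 0 < T) (hF : FH T F F1)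
    (L : LH W m T (fun _ => ν) F x0 u z) (hSE : SE ν T F u z) (hτ : τ ∈ Ioc 0 T) {M : ℝ}
    (hM : 0 ≤ M) :
    ∃ M' : ℝ, 0 ≤ M' ∧ ∀ h : ℝ, 0 < h → h ≤ τ → ∫ s in (τ - h)..τ, ‖z s‖ ^ 2 ≤ M * Real.sqrt h →
      ∀ p : ℝ → Prop, (∀ᵐ s ∂(volume.restrict (Ioc 0 T)), p s) →
      ∃ t1 ∈ Ioo (τ - h) (τ - h / 2), p t1 ∧
        (∀ t ∈ Icc t1 T, dft (fun _ => ν) F x0 u z t1 ≤ dft (fun _ => ν) F x0 u z t) ∧
        dft (fun _ => ν) F x0 u z τ - dft (fun _ => ν) F x0 u z t1 ≤ M' * Real.sqrt h := by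
  have hFc : ContinuousOn F (Icc 0 T) := prim_cont hF.memLp hF.prim
  have Co : Coef ν T (fun _ => ν) F := coef hFc
  obtain ⟨Φ, hΦ0, hΦ⟩ := force_bd hF
  obtain ⟨C3, hC3, hG⟩ := hgrw c hc
  obtain ⟨C0, hC0, hTP⟩ := htp c hc
  have hν32 : 0 < ν ^ (3 / 2 : ℝ) := Real.rpow_pos_of_pos hν _
  have hν54 : 0 < ν ^ (5 / 4 : ℝ) := Real.rpow_pos_of_pos hν _
  have hν52 : 0 < ν ^ (5 / 2 : ℝ) := Real.rpow_pos_of_pos hν _
  have hν72 : 0 < ν ^ (7 / 2 : ℝ) := Real.rpow_pos_of_pos hν _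
  have e54 : (ν ^ (5 / 4 : ℝ)) ^ 2 = ν ^ (5 / 2 : ℝ) := by
    rw [← Real.rpow_natCast, ← Real.rpow_mul hν.le]; norm_num
  set N : ℝ := 2 * M / ν ^ (3 / 2 : ℝ) with hN
  have hN0 : 0 ≤ N := by positivity
  set Lc : ℝ := Φ ^ 2 / ν ^ (7 / 2 : ℝ) with hLc
  have hLc0 : 0 ≤ Lc := by positivity
  set Q : ℝ := C3 * (N + Real.sqrt T * Lc) * Real.exp (C3 * N ^ 2) with hQ
  have hQ0 : 0 ≤ Q := by positivity
  have hsT : 0 ≤ Real.sqrt T := Real.sqrt_nonneg T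
  set B : ℝ := C0 * (N + Lc * Real.sqrt T + (N ^ 2 + Lc * T) * Q) + C0 * Q with hB
  have hB0 : 0 ≤ B := by positivity
  refine ⟨ν ^ (5 / 2 : ℝ) * B, by positivity, ?_⟩
  intro h hh hhτ hdis p hp
  have hsub : Ioo (τ - h) (τ - h / 2) ⊆ Ioc 0 T :=
    fun s hs => ⟨by linarith [hs.1], by linarith [hs.2, hτ.2]⟩
  have hle : (volume.restrict (Ioo (τ - h) (τ - h / 2)) : Measure ℝ)
      ≤ volume.restrict (Ioc 0 T) := Measure.restrict_mono hsub le_rfl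
  have hint : ∫ s in (τ - h)..(τ - h / 2), ‖z s‖ ^ 2 ≤ M * Real.sqrt h := by
    refine le_trans ?_ hdis
    rw [intervalIntegral.integral_of_le (by linarith), intervalIntegral.integral_of_le
      (by linarith)]
    refine setIntegral_mono_set ((zsq_int L).mono_set (Ioc_subset_Ioc (by linarith) hτ.2))
      (Eventually.of_forall fun s => by positivity)
      (Ioc_subset_Ioc le_rfl (by linarith)).eventuallyLE
  obtain ⟨t1, ht1, ⟨⟨hgood, hmono⟩, hpt⟩, hz⟩ := exists_good (by linarith)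
    ((zsq_int L).mono_set hsub)
    (ae_mono hle ((L.mem.and (dft_mono_ae Co L hSE)).and hp)) hint
  have ht1' : t1 ∈ Icc 0 T := Ioc_subset_Icc_self (hsub ht1)
  have hsh : 0 < Real.sqrt h := Real.sqrt_pos.2 hh
  have hsq : Real.sqrt h ^ 2 = h := Real.sq_sqrt hh.le
  have hsq2 : Real.sqrt h * Real.sqrt h = h := Real.mul_self_sqrt hh.le
  have hy : ‖z t1‖ ^ 2 / ν ^ (3 / 2 : ℝ) ≤ N / Real.sqrt h := by
    rw [show τ - h / 2 - (τ - h) = h / 2 by ring] at hz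
    have e1 : M * Real.sqrt h / (h / 2) = 2 * M / Real.sqrt h := by
      rw [div_eq_div_iff (by positivity) hsh.ne', mul_assoc, hsq2]
      ring
    rw [e1] at hz
    rw [hN, div_div, mul_comm (ν ^ (3 / 2 : ℝ)), ← div_div]
    gcongr
  have hy0 : 0 ≤ ‖z t1‖ ^ 2 / ν ^ (3 / 2 : ℝ) := by positivity
  have hhT : h ≤ T := hhτ.trans hτ.2
  have hT1 : h ≤ Real.sqrt T * Real.sqrt h := by
    have h1 : Real.sqrt h ≤ Real.sqrt T := Real.sqrt_le_sqrt hhT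
    calc h = Real.sqrt h * Real.sqrt h := hsq2.symm
      _ ≤ Real.sqrt T * Real.sqrt h := by gcongr
  have hb : ∀ b ∈ Icc t1 τ, ‖u b - u t1‖ ^ 2 / ν ^ (5 / 2 : ℝ) ≤ Q * Real.sqrt h := by
    intro b hb
    have h1 := hG H K W m C ν T F x0 u z Φ Fr Un hν hT hFc L hΦ0 hΦ t1 ht1' hgood hmono b
      ⟨hb.1, hb.2.trans hτ.2⟩
    have h2 : b - t1 ≤ h := by linarith [hb.2, ht1.1]
    have h20 : 0 ≤ b - t1 := by linarith [hb.1]
    have h3 : (b - t1) * (‖z t1‖ ^ 2 / ν ^ (3 / 2 : ℝ) + Φ ^ 2 / ν ^ (7 / 2 : ℝ))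
        ≤ (N + Real.sqrt T * Lc) * Real.sqrt h := by
      calc (b - t1) * (‖z t1‖ ^ 2 / ν ^ (3 / 2 : ℝ) + Φ ^ 2 / ν ^ (7 / 2 : ℝ))
          ≤ h * (N / Real.sqrt h + Lc) := by gcongr
        _ = N * Real.sqrt h + h * Lc := by
            rw [mul_add]
            congr 1
            nth_rw 1 [← hsq2]
            field_simp
        _ ≤ N * Real.sqrt h + (Real.sqrt T * Real.sqrt h) * Lc := by gcongr
        _ = _ := by ring
    have h4 : (b - t1) * (‖z t1‖ ^ 2 / ν ^ (3 / 2 : ℝ)) ^ 2 ≤ N ^ 2 := by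
      calc (b - t1) * (‖z t1‖ ^ 2 / ν ^ (3 / 2 : ℝ)) ^ 2
          ≤ h * (N / Real.sqrt h) ^ 2 := by gcongr
        _ = N ^ 2 := by
            rw [div_pow, hsq]
            field_simp
    refine h1.trans ?_
    calc C3 * ((b - t1) * (‖z t1‖ ^ 2 / ν ^ (3 / 2 : ℝ) + Φ ^ 2 / ν ^ (7 / 2 : ℝ)))
        * Real.exp (C3 * ((b - t1) * (‖z t1‖ ^ 2 / ν ^ (3 / 2 : ℝ)) ^ 2))
        ≤ C3 * ((N + Real.sqrt T * Lc) * Real.sqrt h) * Real.exp (C3 * N ^ 2) := by gcongr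
      _ = Q * Real.sqrt h := by rw [hQ]; ring
  have htτ : t1 ≤ τ := by linarith [ht1.2]
  refine ⟨t1, ht1, hpt, hmono, ?_⟩
  have h5 := hTP H K W m C ν T F x0 u z Φ (u t1) Fr Un hν hT hFc L hΦ0 hΦ t1 ht1' hgood t1 ht1' τ
    ⟨hτ.1.le, hτ.2⟩ htτ
  rw [sub_self, norm_zero, zero_div, zero_add] at h5
  have h6 : 0 ≤ ∫ s in t1..τ, ‖z s‖ ^ 2 / ν ^ (3 / 2 : ℝ) :=
    intervalIntegral.integral_nonneg htτ fun s _ => by positivity
  have hsqd : ∀ b ∈ Icc t1 τ, (‖u b - u t1‖ / ν ^ (5 / 4 : ℝ)) ^ 2 ≤ Q * Real.sqrt h := by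
    intro b hbb
    rw [div_pow, e54]
    exact hb b hbb
  have h7 : (∫ s in t1..τ, (‖z t1‖ ^ 2 / ν ^ (3 / 2 : ℝ) + Φ ^ 2 / ν ^ (7 / 2 : ℝ)
      + ((‖z t1‖ ^ 2 / ν ^ (3 / 2 : ℝ)) ^ 2 + Φ ^ 2 / ν ^ (7 / 2 : ℝ))
        * ((‖u s - u t1‖ / ν ^ (5 / 4 : ℝ)) ^ 2 + (0 : ℝ) ^ 2)))
      ≤ (N + Lc * Real.sqrt T + (N ^ 2 + Lc * T) * Q) * Real.sqrt h := by
    have hI : IntervalIntegrable (fun s => ‖z t1‖ ^ 2 / ν ^ (3 / 2 : ℝ) + Φ ^ 2 / ν ^ (7 / 2 : ℝ)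
      + ((‖z t1‖ ^ 2 / ν ^ (3 / 2 : ℝ)) ^ 2 + Φ ^ 2 / ν ^ (7 / 2 : ℝ))
        * ((‖u s - u t1‖ / ν ^ (5 / 4 : ℝ)) ^ 2 + (0 : ℝ) ^ 2)) volume t1 τ := by
      have i1 := ii_of_int (usq_int Co hν L (u t1)) ht1'.1 htτ hτ.2
      have i2 : IntervalIntegrable (fun s => (‖u s - u t1‖ / ν ^ (5 / 4 : ℝ)) ^ 2) volume t1 τ := by
        have : (fun s => (‖u s - u t1‖ / ν ^ (5 / 4 : ℝ)) ^ 2)
            = fun s => ‖u s - u t1‖ ^ 2 / ν ^ (5 / 2 : ℝ) := by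
          funext s
          rw [div_pow, e54]
        rw [this]
        exact i1.div_const _
      exact intervalIntegrable_const.add ((i2.add intervalIntegrable_const).const_mul _)
    have h8 := intervalIntegral.integral_mono_on htτ hI
      (intervalIntegrable_const (c := N / Real.sqrt h + Lc + ((N / Real.sqrt h) ^ 2 + Lc)
        * (Q * Real.sqrt h))) (by
        intro s hs
        have h9 := hsqd s hs
        have h10 : 0 ≤ (‖u s - u t1‖ / ν ^ (5 / 4 : ℝ)) ^ 2 + (0 : ℝ) ^ 2 := by positivity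
        have h11 : (‖u s - u t1‖ / ν ^ (5 / 4 : ℝ)) ^ 2 + (0 : ℝ) ^ 2 ≤ Q * Real.sqrt h := by
          linarith
        gcongr)
    refine h8.trans ?_
    rw [intervalIntegral.integral_const, smul_eq_mul]
    have h12 : τ - t1 ≤ h := by linarith [ht1.1]
    have h13 : 0 ≤ τ - t1 := by linarith
    calc (τ - t1) * (N / Real.sqrt h + Lc + ((N / Real.sqrt h) ^ 2 + Lc) * (Q * Real.sqrt h))
        ≤ h * (N / Real.sqrt h + Lc + ((N / Real.sqrt h) ^ 2 + Lc) * (Q * Real.sqrt h)) := by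
          gcongr
      _ = N * Real.sqrt h + h * Lc + (N ^ 2 + h * Lc) * (Q * Real.sqrt h) := by
          have e1 : h * (N / Real.sqrt h) = N * Real.sqrt h := by
            nth_rw 1 [← hsq2]
            field_simp
          have e2 : h * (N / Real.sqrt h) ^ 2 = N ^ 2 := by
            rw [div_pow, hsq]
            field_simp
          linear_combination e1 + (Q * Real.sqrt h) * e2
      _ ≤ N * Real.sqrt h + (Real.sqrt T * Real.sqrt h) * Lc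
          + (N ^ 2 + T * Lc) * (Q * Real.sqrt h) := by gcongr
      _ = _ := by ring
  have h14 : C0 * (‖u τ - u t1‖ / ν ^ (5 / 4 : ℝ) * (‖u τ - u t1‖ / ν ^ (5 / 4 : ℝ) + 0))
      ≤ C0 * (Q * Real.sqrt h) := by
    have := hsqd τ ⟨htτ, le_rfl⟩
    rw [add_zero, ← sq]
    gcongr
  have h15 : (dft (fun _ => ν) F x0 u z τ - dft (fun _ => ν) F x0 u z t1) / ν ^ (5 / 2 : ℝ)
      ≤ B * Real.sqrt h := by
    have h16 : C0 * (∫ s in t1..τ, (‖z t1‖ ^ 2 / ν ^ (3 / 2 : ℝ) + Φ ^ 2 / ν ^ (7 / 2 : ℝ)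
      + ((‖z t1‖ ^ 2 / ν ^ (3 / 2 : ℝ)) ^ 2 + Φ ^ 2 / ν ^ (7 / 2 : ℝ))
        * ((‖u s - u t1‖ / ν ^ (5 / 4 : ℝ)) ^ 2 + (0 : ℝ) ^ 2)))
      ≤ C0 * ((N + Lc * Real.sqrt T + (N ^ 2 + Lc * T) * Q) * Real.sqrt h) := by gcongr
    have h17 : B * Real.sqrt h = C0 * ((N + Lc * Real.sqrt T + (N ^ 2 + Lc * T) * Q)
      * Real.sqrt h) + C0 * (Q * Real.sqrt h) := by
      rw [hB]
      ring
    rw [h17]
    linarith
  rw [div_le_iff₀ hν52] at h15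
  linarith

end

end Pool.Agent.TH340.EE
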